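import Pool.Agent.Lib.H59T.UM
import Pool.Agent.Lib.H59P.S1B
import Pool.Agent.Lib.H21AP.DivisorBound
/-!
H9S: pointwise bound for the projections.
-/
namespace Pool.Agent.H9S
open Finset
open Pool.Agent.Lib.H68T Pool.Agent.Lib.H18Q Pool.Agent.Lib.H59P

theorem BDL_dQ (Q : ℕ) (m : ℤ) (hm : 1 ≤ m) : dQ Q m ≤ (m.toNat.divisors.card : ℝ) := by
  unfold dQ
  have h : (Icc 1 Q).filter (fun d : ℕ => (d : ℤ) ∣ m) ⊆ m.toNat.divisors := by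
    intro d hd
    rw [mem_filter, mem_Icc] at hd
    rw [Nat.mem_divisors]
    refine ⟨?_, by omega⟩
    have h1 : ((m.toNat : ℕ) : ℤ) = m := Int.toNat_of_nonneg (by omega)
    rw [← h1] at hd
    exact_mod_cast hd.2
  exact_mod_cast Finset.card_le_card h

/-- `|Lk Q (X/Q²)| ≤ n^ε` on `[X, 4X]`. -/
theorem BDL_bd : ∃ K : ℝ, 1 ≤ K ∧ ∀ ε : ℝ, 0 < ε → ∃ n0 : ℕ, ∀ n : ℕ, n0 ≤ n → ∀ Q X : ℕ, RegP K Q X →
    1 ≤ Q → Q ≤ n → 1 ≤ X → X ≤ n → ∀ m : ℤ, (X : ℤ) ≤ m → m ≤ 4 * X → |Lk Q (X / Q ^ 2) m| ≤ (n:ℝ) ^ ε := by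
  obtain ⟨K1, C1, hK1, hC1, hmass⟩ := Pool.Agent.Lib.H59T.UM_mass
  obtain ⟨K2, hK2, hSG⟩ := Lk_SG
  refine ⟨max K1 K2, hK1.trans (le_max_left _ _), fun ε hε => ?_⟩
  obtain ⟨C, hC, hdiv⟩ := Pool.Agent.Lib.H21AP.divisor_bound (ε := ε / 2) (by positivity)
  obtain ⟨c3, hc3⟩ : ∃ c3 : ℝ, c3 = 100 * (1 + 12 / ε) ^ 3 * (C * 4 ^ (ε / 2)) * C1 := ⟨_, rfl⟩
  have ht1 : ∀ᶠ n : ℕ in Filter.atTop, c3 ≤ (n:ℝ) ^ (ε / 4) :=
    ((tendsto_rpow_atTop (by positivity : 0 < ε / 4)).comp tendsto_natCast_atTop_atTop).eventually_ge_atTop _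
  obtain ⟨n1, hn1⟩ := Filter.eventually_atTop.1 ht1
  refine ⟨max n1 1, fun n hn Q X hreg hQ hQn hX hXn m hm1 hm2 => ?_⟩
  have hn1' := hn1 n (by omega)
  have hnp : (0:ℝ) < n := by
    have : 0 < n := by omega
    exact_mod_cast this
  have hn1r : (1:ℝ) ≤ n := by
    have : 1 ≤ n := by omega
    exact_mod_cast this
  have hK0 : 0 ≤ max K1 K2 := zero_le_one.trans (hK1.trans (le_max_left _ _))
  obtain ⟨mb, hmb0, hmbs, hmb⟩ := hmass Q X (hreg.mono hK0 (le_max_left _ _))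
  have h1 := hSG Q X (hreg.mono hK0 (le_max_right _ _)) m hm1 hm2
  have h2 := S1b Q hQ (fun p => Bc Q X p m) mb (hmb m hm1 hm2) m
  have hm1' : (1:ℤ) ≤ m := by omega
  have h3 : |Lk Q (X / Q ^ 2) m| ≤ 100 * (1 + Real.log Q) ^ 3 * dQ Q m * C1 := by
    rw [← Real.norm_eq_abs, ← Complex.norm_real, h1]
    refine h2.trans ?_
    refine mul_le_mul_of_nonneg_left hmbs ?_
    have : 0 ≤ dQ Q m := by unfold dQ; positivity
    have : 0 ≤ Real.log Q := Real.log_natCast_nonneg Q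
    positivity
  refine h3.trans ?_
  have hlogQ0 : 0 ≤ Real.log Q := Real.log_natCast_nonneg Q
  have hdq0 : 0 ≤ dQ Q m := by unfold dQ; positivity
  -- divisors
  have h4 : dQ Q m ≤ (C * 4 ^ (ε / 2)) * (n:ℝ) ^ (ε / 2) := by
    refine (BDL_dQ Q m hm1').trans ?_
    refine (hdiv m.toNat (by omega)).trans ?_
    rw [mul_assoc, ← Real.mul_rpow (by norm_num) hnp.le]
    refine mul_le_mul_of_nonneg_left ?_ hC.le
    refine Real.rpow_le_rpow (Nat.cast_nonneg _) ?_ (by positivity)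
    have h5 : m.toNat ≤ 4 * n := by omega
    exact_mod_cast h5
  -- logarithm
  have h5 : (1 + Real.log Q) ^ 3 ≤ (1 + 12 / ε) ^ 3 * (n:ℝ) ^ (ε / 4) := by
    have h6 : Real.log Q ≤ Real.log n := Real.log_le_log (by exact_mod_cast hQ) (by exact_mod_cast hQn)
    have h7 : Real.log n ≤ (n:ℝ) ^ (ε / 12) / (ε / 12) := Real.log_le_rpow_div hnp.le (by positivity)
    have h8 : (n:ℝ) ^ (ε / 12) / (ε / 12) = 12 / ε * (n:ℝ) ^ (ε / 12) := by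
      field_simp
    have h9 : (1:ℝ) ≤ (n:ℝ) ^ (ε / 12) := Real.one_le_rpow hn1r (by positivity)
    have h10 : 1 + Real.log Q ≤ (1 + 12 / ε) * (n:ℝ) ^ (ε / 12) := by
      rw [h8] at h7
      have : 0 < 12 / ε := by positivity
      nlinarith
    have h11 : ((n:ℝ) ^ (ε / 12)) ^ 3 = (n:ℝ) ^ (ε / 4) := by
      rw [← Real.rpow_natCast, ← Real.rpow_mul hnp.le]
      congr 1
      push_cast
      ring
    calc (1 + Real.log Q) ^ 3 ≤ ((1 + 12 / ε) * (n:ℝ) ^ (ε / 12)) ^ 3 := pow_le_pow_left₀ (by linarith) h10 3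
      _ = (1 + 12 / ε) ^ 3 * (n:ℝ) ^ (ε / 4) := by rw [mul_pow, h11]
  have hC1' : 0 ≤ C1 := by linarith
  have hP0 : 0 ≤ (n:ℝ) ^ (ε / 2) := Real.rpow_nonneg hnp.le _
  have hP1 : 0 ≤ (n:ℝ) ^ (ε / 4) := Real.rpow_nonneg hnp.le _
  calc 100 * (1 + Real.log Q) ^ 3 * dQ Q m * C1
      ≤ 100 * ((1 + 12 / ε) ^ 3 * (n:ℝ) ^ (ε / 4)) * ((C * 4 ^ (ε / 2)) * (n:ℝ) ^ (ε / 2)) * C1 := by
        refine mul_le_mul_of_nonneg_right ?_ hC1'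
        refine mul_le_mul (mul_le_mul_of_nonneg_left h5 (by norm_num)) h4 hdq0 (by positivity)
    _ = c3 * ((n:ℝ) ^ (ε / 4) * (n:ℝ) ^ (ε / 2)) := by rw [hc3]; ring
    _ ≤ (n:ℝ) ^ (ε / 4) * ((n:ℝ) ^ (ε / 4) * (n:ℝ) ^ (ε / 2)) :=
        mul_le_mul_of_nonneg_right hn1' (mul_nonneg hP1 hP0)
    _ = (n:ℝ) ^ ε := by
        rw [← Real.rpow_add hnp, ← Real.rpow_add hnp]
        congr 1
        ring

end Pool.Agent.H9S
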