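import Pool.Agent.Lib.H9S.Defs
/-!
CHUNK E1 (M). The inverse theorem for `E = lp - Lk Q (X/Q²)`. Let `Cr, C, c1` be given and `c2'`, `n0'` the constants of `INVK` for `c1`.
Put `c3 = min (c2' / 8) (1 / Cr)`, `Q' = ⌊n^c3⌋₊`, `Y = X / Q^2`.
* `1 ≤ Q'` (`n ≥ 1`), `n^c3 / 2 ≤ Q' ≤ n^c3` (`Nat.lt_floor_add_one`, `n^c3 ≥ 1`), and `Q' ≤ Q`: `n^c3 ≤ n^(1/Cr) ≤ Q` because
  `log n ≤ Cr log Q`.
* `Y < X` (`Q ≥ 2`, `X ≥ 1`: `Nat.div_lt_self`).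
* `Ec Q X m = lc m - Lc Q' Y m - (Lc Q Y m - Lc Q' Y m)`, so `BF(Ec) = BF(lc) - BF(Lc Q' Y) - BF(difference)` (linearity, `Finset.sum_sub_distrib`) and
  `‖BF(Ec)‖ ≤ n^(2-c2') + Q'^3 n^(2-c2') + C X² Q'^(-1/1152) ≤ 2 n^(2 - c2' + 3 c3) + 2 C n^(2 - c3/1152)`
  (`X ≤ n`; `Q'^(-1/1152) ≤ (n^c3/2)^(-1/1152) ≤ 2 n^(-c3/1152)`), `3 c3 ≤ 3 c2'/8`.
* `c2 = min (c2' / 2) (c3 / 1152) / 2`: both terms are at most `(2 + 2C) n^(2 - 2 c2) ≤ n^(2 - c2)` for `n` large.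
-/
namespace Pool.Agent.H9S
open Finset Pool.Agent.H44W

theorem e1_lin (S T : Finset ℤ) (F1 F2 F3 W f g : ℤ → ℂ) :
    BF S T (fun m => F1 m - F2 m - F3 m) W f g = BF S T F1 W f g - BF S T F2 W f g - BF S T F3 W f g := by
  unfold BF
  rw [← Finset.sum_sub_distrib, ← Finset.sum_sub_distrib]
  refine Finset.sum_congr rfl fun x _ => ?_
  rw [← Finset.sum_sub_distrib, ← Finset.sum_sub_distrib]
  refine Finset.sum_congr rfl fun y _ => ?_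
  ring

theorem E1_inv (h : INVK) : INVE := by
  intro Cr C c1 hCr hC hc1
  obtain ⟨c2', hc2', n0', h'⟩ := h c1 hc1
  have hCr0 : 0 < Cr := by linarith
  obtain ⟨c3, hc3⟩ : ∃ c3 : ℝ, c3 = min (c2' / 8) (1 / Cr) := ⟨_, rfl⟩
  have hc30 : 0 < c3 := by
    rw [hc3]
    exact lt_min (by positivity) (by positivity)
  have hc3a : c3 ≤ c2' / 8 := by
    rw [hc3]
    exact min_le_left _ _
  have hc3b : c3 ≤ 1 / Cr := by
    rw [hc3]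
    exact min_le_right _ _
  obtain ⟨c2, hc2⟩ : ∃ c2 : ℝ, c2 = min (c2' / 2) (c3 / 1152) / 2 := ⟨_, rfl⟩
  have hc20 : 0 < c2 := by
    rw [hc2]
    have : 0 < min (c2' / 2) (c3 / 1152) := lt_min (by positivity) (by positivity)
    linarith
  have hc2a : 2 * c2 ≤ c2' / 2 := by
    rw [hc2]
    have := min_le_left (c2' / 2) (c3 / 1152)
    linarith
  have hc2b : 2 * c2 ≤ c3 / 1152 := by
    rw [hc2]
    have := min_le_right (c2' / 2) (c3 / 1152)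
    linarith
  refine ⟨c2, hc20, max (max n0' 1) ⌈(2 + 2 * C) ^ (1 / c2)⌉₊, ?_⟩
  intro n hn Q X hQ hlog hX hXn hLK W f g hW hf hg hFB
  have hn0' : n0' ≤ n := le_trans (le_trans (le_max_left _ _) (le_max_left _ _)) hn
  have hn1 : 1 ≤ n := le_trans (le_trans (le_max_right _ _) (le_max_left _ _)) hn
  have hn2 : (2 + 2 * C) ^ (1 / c2) ≤ n := (Nat.le_ceil _).trans (by exact_mod_cast (le_max_right _ _).trans hn)
  have hnR : (1 : ℝ) ≤ n := by exact_mod_cast hn1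
  have hnR0 : (0 : ℝ) < n := by linarith
  have hQR : (0 : ℝ) < Q := by exact_mod_cast (by omega : 0 < Q)
  obtain ⟨x, hx⟩ : ∃ x : ℝ, x = (n : ℝ) ^ c3 := ⟨_, rfl⟩
  have hx1 : 1 ≤ x := by
    rw [hx]
    exact Real.one_le_rpow hnR hc30.le
  have hx0 : 0 < x := by linarith
  obtain ⟨Q', hQ'⟩ : ∃ Q' : ℕ, Q' = ⌊x⌋₊ := ⟨_, rfl⟩
  have hQ'1 : 1 ≤ Q' := by
    rw [hQ']
    exact Nat.le_floor (by exact_mod_cast hx1)
  have hQ'x : (Q' : ℝ) ≤ x := by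
    rw [hQ']
    exact Nat.floor_le hx0.le
  have hQ'R : (1 : ℝ) ≤ Q' := by exact_mod_cast hQ'1
  have hQ'2 : x / 2 ≤ Q' := by
    have h1 : x < Q' + 1 := by
      rw [hQ']
      exact Nat.lt_floor_add_one x
    linarith
  have hxQ : x ≤ Q := by
    have h1 : x ≤ (n : ℝ) ^ (1 / Cr) := by
      rw [hx]
      exact Real.rpow_le_rpow_of_exponent_le hnR hc3b
    refine h1.trans ?_
    rw [Real.rpow_def_of_pos hnR0, ← Real.le_log_iff_exp_le hQR, mul_one_div, div_le_iff₀ hCr0, mul_comm]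
    exact hlog
  have hQQ : Q' ≤ Q := by exact_mod_cast hQ'x.trans hxQ
  have hY : X / Q ^ 2 < X := by
    refine Nat.div_lt_self (by omega) ?_
    have : 2 ^ 2 ≤ Q ^ 2 := Nat.pow_le_pow_left hQ 2
    omega
  obtain ⟨b1, b2⟩ := h' n hn0' X hX hXn W f g hW hf hg hFB
  have b2' := b2 Q' (X / Q ^ 2) hY
  have b3 := hLK Q' hQ'1 hQQ W f g hW hf hg
  have e1 : BF (Sx X) (Sy X) (Ec Q X) W f g = BF (Sx X) (Sy X) lc W f g -
      BF (Sx X) (Sy X) (Lc Q' (X / Q ^ 2)) W f g -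
      BF (Sx X) (Sy X) (fun m => Lc Q (X / Q ^ 2) m - Lc Q' (X / Q ^ 2) m) W f g := by
    rw [← e1_lin]
    congr 1
    funext m
    unfold Ec
    ring
  rw [e1]
  have n1 : ‖BF (Sx X) (Sy X) lc W f g - BF (Sx X) (Sy X) (Lc Q' (X / Q ^ 2)) W f g -
      BF (Sx X) (Sy X) (fun m => Lc Q (X / Q ^ 2) m - Lc Q' (X / Q ^ 2) m) W f g‖ ≤
      (n : ℝ) ^ (2 - c2') + (Q' : ℝ) ^ 3 * (n : ℝ) ^ (2 - c2') + C * (X : ℝ) ^ 2 * (Q' : ℝ) ^ (-(1 / 1152 : ℝ)) := by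
    refine (norm_sub_le _ _).trans (add_le_add ((norm_sub_le _ _).trans (add_le_add b1 b2')) b3)
  refine n1.trans ?_
  have m1 : (n : ℝ) ^ (2 - c2') ≤ (n : ℝ) ^ (2 - 2 * c2) :=
    Real.rpow_le_rpow_of_exponent_le hnR (by linarith)
  have m2 : (Q' : ℝ) ^ 3 * (n : ℝ) ^ (2 - c2') ≤ (n : ℝ) ^ (2 - 2 * c2) := by
    have h1 : (Q' : ℝ) ^ 3 ≤ (n : ℝ) ^ (3 * c3) := by
      calc (Q' : ℝ) ^ 3 ≤ x ^ 3 := pow_le_pow_left₀ (by linarith) hQ'x 3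
        _ = (n : ℝ) ^ (3 * c3) := by
          rw [hx, ← Real.rpow_natCast, ← Real.rpow_mul hnR0.le]
          congr 1
          push_cast
          ring
    calc (Q' : ℝ) ^ 3 * (n : ℝ) ^ (2 - c2') ≤ (n : ℝ) ^ (3 * c3) * (n : ℝ) ^ (2 - c2') :=
          mul_le_mul_of_nonneg_right h1 (by positivity)
      _ = (n : ℝ) ^ (3 * c3 + (2 - c2')) := by rw [← Real.rpow_add hnR0]
      _ ≤ (n : ℝ) ^ (2 - 2 * c2) := Real.rpow_le_rpow_of_exponent_le hnR (by linarith)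
  have m3 : C * (X : ℝ) ^ 2 * (Q' : ℝ) ^ (-(1 / 1152 : ℝ)) ≤ 2 * C * (n : ℝ) ^ (2 - 2 * c2) := by
    have h1 : (Q' : ℝ) ^ (-(1 / 1152 : ℝ)) ≤ 2 * (n : ℝ) ^ (-(c3 / 1152)) := by
      have h2 : (Q' : ℝ) ^ (-(1 / 1152 : ℝ)) ≤ (x / 2) ^ (-(1 / 1152 : ℝ)) :=
        Real.rpow_le_rpow_of_nonpos (by positivity) hQ'2 (by norm_num)
      refine h2.trans ?_
      rw [Real.div_rpow hx0.le (by norm_num), hx, ← Real.rpow_mul hnR0.le]
      have h3 : c3 * (-(1 / 1152 : ℝ)) = -(c3 / 1152) := by ring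
      have h4 : (2 : ℝ) ^ (-(1 / 1152 : ℝ)) = ((2 : ℝ) ^ (1 / 1152 : ℝ))⁻¹ := Real.rpow_neg (by norm_num) _
      rw [h3, h4, div_inv_eq_mul, mul_comm]
      refine mul_le_mul_of_nonneg_right ?_ (by positivity)
      calc (2 : ℝ) ^ (1 / 1152 : ℝ) ≤ (2 : ℝ) ^ (1 : ℝ) :=
            Real.rpow_le_rpow_of_exponent_le (by norm_num) (by norm_num)
        _ = 2 := Real.rpow_one 2
    have h5 : (X : ℝ) ^ 2 ≤ (n : ℝ) ^ (2 : ℝ) := by
      have h6 : (X : ℝ) ≤ n := by exact_mod_cast hXn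
      rw [Real.rpow_two]
      exact pow_le_pow_left₀ (by positivity) h6 2
    calc C * (X : ℝ) ^ 2 * (Q' : ℝ) ^ (-(1 / 1152 : ℝ)) ≤
        C * (n : ℝ) ^ (2 : ℝ) * (2 * (n : ℝ) ^ (-(c3 / 1152))) :=
          mul_le_mul (mul_le_mul_of_nonneg_left h5 hC.le) h1 (by positivity) (by positivity)
      _ = 2 * C * (n : ℝ) ^ (2 + -(c3 / 1152)) := by
          rw [Real.rpow_add hnR0]
          ring
      _ ≤ 2 * C * (n : ℝ) ^ (2 - 2 * c2) := by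
          refine mul_le_mul_of_nonneg_left ?_ (by positivity)
          exact Real.rpow_le_rpow_of_exponent_le hnR (by linarith)
  have m4 : 2 + 2 * C ≤ (n : ℝ) ^ c2 := by
    have h1 : ((2 + 2 * C) ^ (1 / c2)) ^ c2 ≤ (n : ℝ) ^ c2 :=
      Real.rpow_le_rpow (by positivity) hn2 hc20.le
    rw [← Real.rpow_mul (by positivity), one_div_mul_cancel hc20.ne', Real.rpow_one] at h1
    exact h1
  calc _ ≤ (n : ℝ) ^ (2 - 2 * c2) + (n : ℝ) ^ (2 - 2 * c2) + 2 * C * (n : ℝ) ^ (2 - 2 * c2) :=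
        add_le_add (add_le_add m1 m2) m3
    _ = (2 + 2 * C) * (n : ℝ) ^ (2 - 2 * c2) := by ring
    _ ≤ (n : ℝ) ^ c2 * (n : ℝ) ^ (2 - 2 * c2) := mul_le_mul_of_nonneg_right m4 (by positivity)
    _ = (n : ℝ) ^ (2 - c2) := by
        rw [← Real.rpow_add hnR0]
        congr 1
        ring

end Pool.Agent.H9S
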