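import Pool.Agent.Lib.H9S.Defs
/-!
CHUNK K2 (S/M). Translation. `Lc Q Y m = ∑_{z} kern Q Y z * lc (m - z)` (definition of `Lk`). In
`∑_{x ∈ S} ∑_{y ∈ T} f x g y lc(x + y - z) W(x - y)` put `x = x' + z`, `x' ∈ S - z` (`Finset.sum_image`, `x ↦ x - z` is injective):
`x + y - z = x' + y`, `x - y = (x' - y) + z`. Exchange the sums (`Finset.sum_comm`, `Finset.mul_sum`).
`K2_FB`: `∑_{x' ∈ S - z} f(x' + z) ee(th x') = ee(-(th z)) ∑_{x ∈ S} f x ee(th x)` (`ee_add`, `norm_ee` in H44W/E1).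
-/
namespace Pool.Agent.H9S
open Finset Pool.Agent.H44W
open Pool.Agent.Lib.H68T (lp Lk kern tent cq)

theorem K2_trans (Q Y : ℕ) (S T : Finset ℤ) (W f g : ℤ → ℂ) :
    BF S T (Lc Q Y) W f g = ∑ z ∈ Ioo (-(Y:ℤ)) Y, ((kern Q Y z : ℝ) : ℂ) *
      BF (S.image (fun x => x - z)) T lc (fun v => W (v + z)) (fun x => f (x + z)) g := by
  have h1 : ∀ z : ℤ, BF (S.image (fun x => x - z)) T lc (fun v => W (v + z)) (fun x => f (x + z)) g =
      ∑ x ∈ S, ∑ y ∈ T, f x * g y * lc (x + y - z) * W (x - y) := by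
    intro z
    unfold BF
    rw [Finset.sum_image fun a _ b _ h => sub_left_injective h]
    refine Finset.sum_congr rfl fun x _ => Finset.sum_congr rfl fun y _ => ?_
    have e1 : x - z + z = x := by ring
    have e2 : x - z + y = x + y - z := by ring
    have e3 : x - z - y + z = x - y := by ring
    simp only [e1, e2, e3]
  simp only [h1]
  have h2 : ∀ z ∈ Ioo (-(Y:ℤ)) Y, ((kern Q Y z : ℝ) : ℂ) * ∑ x ∈ S, ∑ y ∈ T, f x * g y * lc (x + y - z) * W (x - y) =
      ∑ x ∈ S, ∑ y ∈ T, f x * g y * (((kern Q Y z : ℝ) : ℂ) * lc (x + y - z)) * W (x - y) := by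
    intro z _
    rw [Finset.mul_sum]
    refine Finset.sum_congr rfl fun x _ => ?_
    rw [Finset.mul_sum]
    refine Finset.sum_congr rfl fun y _ => ?_
    ring
  rw [Finset.sum_congr rfl h2, Finset.sum_comm]
  unfold BF
  refine Finset.sum_congr rfl fun x _ => ?_
  rw [Finset.sum_comm]
  refine Finset.sum_congr rfl fun y _ => ?_
  rw [← Finset.sum_mul, ← Finset.mul_sum]
  congr 2
  unfold Lc Lk lc
  push_cast
  rfl

theorem K2_FB (S : Finset ℤ) (z : ℤ) (f : ℤ → ℂ) (κ : ℝ) (h : FB S f κ) :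
    FB (S.image (fun x => x - z)) (fun x => f (x + z)) κ := by
  intro th
  rw [Finset.sum_image fun a _ b _ h => sub_left_injective h]
  have h1 : ∑ x ∈ S, f (x - z + z) * ee (th * ((x - z : ℤ) : ℝ)) = ee (-(th * z)) * ∑ x ∈ S, f x * ee (th * x) := by
    rw [Finset.mul_sum]
    refine Finset.sum_congr rfl fun x _ => ?_
    have e1 : x - z + z = x := by ring
    have e2 : th * ((x - z : ℤ) : ℝ) = -(th * z) + th * x := by
      push_cast
      ring
    rw [e1, e2, ee_add]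
    ring
  have h2 : ‖∑ x ∈ S, f (x - z + z) * ee (th * ((x - z : ℤ) : ℝ))‖ ≤ κ := by
    rw [h1, norm_mul, norm_ee, one_mul]
    exact h th
  exact h2

end Pool.Agent.H9S
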