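import Pool.Agent.Lib.H9S.K1
import Pool.Agent.Lib.H9S.K2
/-!
CHUNK K3 (S/M). `INVB` gives `INVK`, with the same `c2`, `n0`. First part: `INVB` with `a = X`, `S = Sx X`, `T = Sy X`:
`X + 1 ≤ 2X ≤ x < 3X ≤ X + 4n` and `1 - X ≤ y ≤ X - 1 ≤ 4n - X` (`1 ≤ X ≤ n`).
Second part: `K2_trans`; for `|z| < Y < X` the points of `Sx X - z` lie in `(X, 4X)`, so `X + 1 ≤ x' ≤ X + 4n` (`x' < 3X + Y < 4X`); the form for
`z` is at most `n^(2-c2)` by `INVB` (`a = X`; `W (· + z)`, `f (· + z)` bounded; `FB` of `f` by `K2_FB`, `FB` of `g` unchanged). Sum over `z` with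
`K1_mass`: `‖kern‖` has the norm `|kern Q Y z|`.
-/
namespace Pool.Agent.H9S
open Finset Pool.Agent.H44W

theorem K3_inv (h : INVB) : INVK := by
  intro c1 hc1
  obtain ⟨c2, hc2, n0, H⟩ := h c1 hc1
  refine ⟨c2, hc2, n0, ?_⟩
  intro n hn X hX1 hXn W f g hW hf hg hFB
  have hX1' : (1 : ℤ) ≤ X := by exact_mod_cast hX1
  have hXn' : (X : ℤ) ≤ n := by exact_mod_cast hXn
  have hy : ∀ y ∈ Sy X, 1 - (X : ℤ) ≤ y ∧ y ≤ 4 * n - X := by
    intro y hy
    unfold Sy at hy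
    rw [mem_Ioo] at hy
    constructor <;> omega
  refine ⟨H n hn X (Sx X) (Sy X) ?_ hy W f g hW hf hg hFB, ?_⟩
  · intro x hx
    unfold Sx at hx
    rw [mem_Ico] at hx
    constructor <;> omega
  · intro Q Y hY
    have hY' : (Y : ℤ) < X := by exact_mod_cast hY
    rw [K2_trans]
    refine (norm_sum_le _ _).trans ?_
    have hterm : ∀ z ∈ Ioo (-(Y:ℤ)) Y, ‖((Pool.Agent.Lib.H68T.kern Q Y z : ℝ) : ℂ) *
        BF ((Sx X).image (fun x => x - z)) (Sy X) lc (fun v => W (v + z)) (fun x => f (x + z)) g‖ ≤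
        |Pool.Agent.Lib.H68T.kern Q Y z| * (n:ℝ) ^ (2 - c2) := by
      intro z hz
      rw [mem_Ioo] at hz
      rw [norm_mul, Complex.norm_real, Real.norm_eq_abs]
      refine mul_le_mul_of_nonneg_left ?_ (abs_nonneg _)
      refine H n hn X _ (Sy X) ?_ hy _ _ g (fun x => hW _) (fun x => hf _) hg ?_
      · intro x hx
        rw [mem_image] at hx
        obtain ⟨x', hx', rfl⟩ := hx
        unfold Sx at hx'
        rw [mem_Ico] at hx'
        constructor <;> omega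
      · rcases hFB with h1 | h1
        · exact Or.inl h1
        · exact Or.inr (K2_FB (Sx X) z f _ h1)
    refine (sum_le_sum hterm).trans ?_
    rw [← sum_mul]
    exact mul_le_mul_of_nonneg_right (K1_mass Q Y) (Real.rpow_nonneg (Nat.cast_nonneg n) _)

end Pool.Agent.H9S
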