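import Pool.Agent.Lib.H9S.Defs
import Pool.Agent.Lib.H96G.Defs
/-!
CHUNK O2 (M). Both halves. Let `c'`, `n0'` be the constants of `OPW` for `(Cr, C)`; `c = c'/4`. `n` large: `2 log (4n) + 2 n^(c'/4) ≤ n^c'` and
`2 n^(2-c') ≤ n^(2-c)`. On `[X, 4X]`: `|lp m| ≤ log (4n)` (`lp m = log m` or `0`, `1 ≤ m ≤ 4n`), `|Lk| ≤ n^c`, so `‖Ec‖ ≤ n^c'`.
Put `L = Lk Q (X/Q^2)`, `f₁ x = f x.toNat`, `g₁ y = if Z ≤ y ∧ y < 2Z then g y.toNat else 0`, `g₂ y = g₁ (-y)` (complex values).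
First half: `BF (Sx X) (Sy X) (Ec Q X) lc f₁ g₁ = ∑_x ∑_{y ∈ [Z,2Z)} f x g y (lp - L)(x+y) lp(x-y)` (`[Z, 2Z) ⊆ (-X, X)` since `2Z ≤ X`).
Second half: `BF (Sx X) (Sy X) (Ec Q X) (Lc Q (X/Q^2)) f₁ g₂ = ∑_x ∑_{y ∈ [Z,2Z)} f x g y (lp - L)(x-y) L(x+y)` (substitute `y ↦ -y`).
The sum of both is `∑∑ f x g y (lp(x+y) lp(x-y) - L(x+y) L(x-y))`, the form with `kp - km L` (definitions in H96G/Defs). Both halves are at most
`n^(2-c')` by `OPW`. Sums over `Ico (2X) (3X)` in `ℕ` and `Sx X` in `ℤ`: `Finset.sum_nbij'` with `Nat.cast` and `Int.toNat`.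
-/
namespace Pool.Agent.H9S
open Finset Pool.Agent.H44W
open Pool.Agent.Lib.H68T (lp Lk)
open Pool.Agent.Lib.H96G (kp km)

theorem o2_im (a b : ℕ) : (Ico a b).image (Nat.cast : ℕ → ℤ) = Ico (a:ℤ) (b:ℤ) := by
  ext z
  simp only [mem_image, mem_Ico]
  constructor
  · rintro ⟨m, ⟨h1, h2⟩, rfl⟩
    omega
  · rintro ⟨h1, h2⟩
    exact ⟨z.toNat, by omega, by omega⟩

theorem o2_x (X : ℕ) (φ : ℤ → ℂ) : ∑ x ∈ Sx X, φ x = ∑ x ∈ Ico (2 * X) (3 * X), φ (x : ℤ) := by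
  have h : Sx X = (Ico (2 * X) (3 * X)).image (Nat.cast : ℕ → ℤ) := by
    rw [o2_im, Sx]
    push_cast
    rfl
  rw [h, Finset.sum_image (fun a _ b _ hab => by exact_mod_cast hab)]

theorem o2_y1 (X Z : ℕ) (h : 2 * Z ≤ X) (G φ : ℤ → ℂ) :
    ∑ y ∈ Sy X, (if (Z:ℤ) ≤ y ∧ y < 2 * Z then G y else 0) * φ y = ∑ y ∈ Ico Z (2 * Z), G (y : ℤ) * φ (y : ℤ) := by
  have h1 : (Sy X).filter (fun y => (Z:ℤ) ≤ y ∧ y < 2 * Z) = (Ico Z (2 * Z)).image (Nat.cast : ℕ → ℤ) := by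
    rw [o2_im, Sy]
    ext y
    simp only [mem_filter, mem_Ioo, mem_Ico]
    push_cast
    omega
  rw [← Finset.sum_image (s := Ico Z (2 * Z)) (g := (Nat.cast : ℕ → ℤ)) (f := fun y : ℤ => G y * φ y)
    (fun a _ b _ hab => by exact_mod_cast hab), ← h1, Finset.sum_filter]
  refine Finset.sum_congr rfl fun y _ => ?_
  split_ifs
  · rfl
  · rw [zero_mul]

theorem o2_y2 (X Z : ℕ) (h : 2 * Z ≤ X) (G φ : ℤ → ℂ) :
    ∑ y ∈ Sy X, (if (Z:ℤ) ≤ -y ∧ -y < 2 * Z then G (-y) else 0) * φ y =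
      ∑ y ∈ Ico Z (2 * Z), G (y : ℤ) * φ (-(y : ℤ)) := by
  have h1 : ∑ y ∈ Sy X, (if (Z:ℤ) ≤ -y ∧ -y < 2 * Z then G (-y) else 0) * φ y =
      ∑ y ∈ Sy X, (if (Z:ℤ) ≤ y ∧ y < 2 * Z then G y else 0) * φ (-y) := by
    refine Finset.sum_nbij' (fun y => -y) (fun y => -y) ?_ ?_ ?_ ?_ ?_
    · intro y hy
      rw [Sy, mem_Ioo] at *
      omega
    · intro y hy
      rw [Sy, mem_Ioo] at *
      omega
    · intro y _
      exact neg_neg y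
    · intro y _
      exact neg_neg y
    · intro y _
      rw [neg_neg]
  rw [h1, o2_y1 X Z h G (fun y => φ (-y))]

theorem o2_alg (lx ly Lx Ly : ℝ) (a b : ℝ) :
    ((a : ℂ) * (b : ℂ) * ((lx : ℂ) - (Lx : ℂ)) * (ly : ℂ)) + ((a : ℂ) * (b : ℂ) * ((ly : ℂ) - (Ly : ℂ)) * (Lx : ℂ)) =
      ((a * b * (lx * ly - Lx * Ly) : ℝ) : ℂ) := by
  push_cast
  ring

theorem o2_split (Q X Z : ℕ) (h : 2 * Z ≤ X) (f g : ℕ → ℝ) :
    ((∑ x ∈ Ico (2 * X) (3 * X), ∑ y ∈ Ico Z (2 * Z), f x * g y * (kp x y - km (Lk Q (X / Q ^ 2)) x y) : ℝ) : ℂ) =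
      BF (Sx X) (Sy X) (Ec Q X) lc (fun x => ((f x.toNat : ℝ) : ℂ))
        (fun y => if (Z:ℤ) ≤ y ∧ y < 2 * Z then ((g y.toNat : ℝ) : ℂ) else 0) +
      BF (Sx X) (Sy X) (Ec Q X) (Lc Q (X / Q ^ 2)) (fun x => ((f x.toNat : ℝ) : ℂ))
        (fun y => if (Z:ℤ) ≤ -y ∧ -y < 2 * Z then ((g (-y).toNat : ℝ) : ℂ) else 0) := by
  have e1 : BF (Sx X) (Sy X) (Ec Q X) lc (fun x => ((f x.toNat : ℝ) : ℂ))
        (fun y => if (Z:ℤ) ≤ y ∧ y < 2 * Z then ((g y.toNat : ℝ) : ℂ) else 0) =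
      ∑ x ∈ Ico (2 * X) (3 * X), ∑ y ∈ Ico Z (2 * Z), (f x : ℂ) * (g y : ℂ) *
        (lc ((x:ℤ) + y) - Lc Q (X / Q ^ 2) ((x:ℤ) + y)) * lc ((x:ℤ) - y) := by
    rw [BF, o2_x]
    refine Finset.sum_congr rfl fun x _ => ?_
    rw [Int.toNat_natCast]
    have h1 : ∀ y ∈ Sy X, (f x : ℂ) * (if (Z:ℤ) ≤ y ∧ y < 2 * Z then ((g y.toNat : ℝ) : ℂ) else 0) * Ec Q X ((x:ℤ) + y) *
        lc ((x:ℤ) - y) = (if (Z:ℤ) ≤ y ∧ y < 2 * Z then ((fun y : ℤ => ((g y.toNat : ℝ) : ℂ)) y) else 0) *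
          ((fun y : ℤ => (f x : ℂ) * Ec Q X ((x:ℤ) + y) * lc ((x:ℤ) - y)) y) := by
      intro y _
      ring
    rw [Finset.sum_congr rfl h1, o2_y1 X Z h (fun y : ℤ => ((g y.toNat : ℝ) : ℂ))]
    refine Finset.sum_congr rfl fun y _ => ?_
    rw [Int.toNat_natCast, Ec]
    ring
  have e2 : BF (Sx X) (Sy X) (Ec Q X) (Lc Q (X / Q ^ 2)) (fun x => ((f x.toNat : ℝ) : ℂ))
        (fun y => if (Z:ℤ) ≤ -y ∧ -y < 2 * Z then ((g (-y).toNat : ℝ) : ℂ) else 0) =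
      ∑ x ∈ Ico (2 * X) (3 * X), ∑ y ∈ Ico Z (2 * Z), (f x : ℂ) * (g y : ℂ) *
        (lc ((x:ℤ) - y) - Lc Q (X / Q ^ 2) ((x:ℤ) - y)) * Lc Q (X / Q ^ 2) ((x:ℤ) + y) := by
    rw [BF, o2_x]
    refine Finset.sum_congr rfl fun x _ => ?_
    rw [Int.toNat_natCast]
    have h1 : ∀ y ∈ Sy X, (f x : ℂ) * (if (Z:ℤ) ≤ -y ∧ -y < 2 * Z then ((g (-y).toNat : ℝ) : ℂ) else 0) *
        Ec Q X ((x:ℤ) + y) * Lc Q (X / Q ^ 2) ((x:ℤ) - y) =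
          (if (Z:ℤ) ≤ -y ∧ -y < 2 * Z then ((fun y : ℤ => ((g y.toNat : ℝ) : ℂ)) (-y)) else 0) *
          ((fun y : ℤ => (f x : ℂ) * Ec Q X ((x:ℤ) + y) * Lc Q (X / Q ^ 2) ((x:ℤ) - y)) y) := by
      intro y _
      ring
    rw [Finset.sum_congr rfl h1, o2_y2 X Z h (fun y : ℤ => ((g y.toNat : ℝ) : ℂ))]
    refine Finset.sum_congr rfl fun y _ => ?_
    simp only [Int.toNat_natCast, Ec, sub_neg_eq_add, ← sub_eq_add_neg]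
    ring
  rw [e1, e2, ← Finset.sum_add_distrib, Complex.ofReal_sum]
  refine Finset.sum_congr rfl fun x _ => ?_
  rw [← Finset.sum_add_distrib, Complex.ofReal_sum]
  refine Finset.sum_congr rfl fun y _ => ?_
  rw [kp, km]
  exact (o2_alg _ _ _ _ _ _).symm

theorem O2_two (h : OPW) : ∀ Cr C : ℝ, 1 ≤ Cr → 0 < C → ∃ c : ℝ, 0 < c ∧ ∃ n0 : ℕ, ∀ n : ℕ, n0 ≤ n →
    ∀ Q X Z : ℕ, 2 ≤ Q → Real.log n ≤ Cr * Real.log Q → 1 ≤ Z → 2 * Z ≤ X → X ≤ n → LKd C Q X →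
    (∀ th : ℝ, ∀ u v : ℤ, (X:ℤ) ≤ u → v ≤ 4 * X →
      ‖∑ m ∈ Ico u v, Ec Q X m * ee (th * m)‖ ≤ X * (Q:ℝ) ^ (-(1 / 4) : ℝ)) →
    (∀ m : ℤ, (X:ℤ) ≤ m → m ≤ 4 * X → |Lk Q (X / Q ^ 2) m| ≤ (n:ℝ) ^ c) →
    ∀ f g : ℕ → ℝ, (∀ x, |f x| ≤ 1) → (∀ y, |g y| ≤ 1) →
    |∑ x ∈ Ico (2 * X) (3 * X), ∑ y ∈ Ico Z (2 * Z), f x * g y * (kp x y - km (Lk Q (X / Q ^ 2)) x y)| ≤
      (n:ℝ) ^ (2 - c) := by
  intro Cr C hCr hC
  obtain ⟨c', hc', n0', hO⟩ := h Cr C hCr hC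
  have ht1 : ∀ᶠ n : ℕ in Filter.atTop, (8:ℝ) * (4 / c') ≤ (n:ℝ) ^ (c' / 4) :=
    ((tendsto_rpow_atTop (by positivity : 0 < c' / 4)).comp tendsto_natCast_atTop_atTop).eventually_ge_atTop _
  have ht2 : ∀ᶠ n : ℕ in Filter.atTop, (8:ℝ) ≤ (n:ℝ) ^ (c' / 4) :=
    ((tendsto_rpow_atTop (by positivity : 0 < c' / 4)).comp tendsto_natCast_atTop_atTop).eventually_ge_atTop _
  obtain ⟨n1, hn1⟩ := Filter.eventually_atTop.1 (ht1.and ht2)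
  refine ⟨c' / 4, by positivity, max (max n0' n1) 4, fun n hn Q X Z hQ hlog hZ hZX hXn hLK hF hL f g hf hg => ?_⟩
  have hn0 : n0' ≤ n := by omega
  have hn4 : 4 ≤ n := by omega
  obtain ⟨hp1, hp2⟩ := hn1 n (by omega)
  have hnp : (0:ℝ) < n := by
    have : 0 < n := by omega
    exact_mod_cast this
  have hn1' : (1:ℝ) ≤ n := by
    have : 1 ≤ n := by omega
    exact_mod_cast this
  have hX1 : 1 ≤ X := by omega
  set P : ℝ := (n:ℝ) ^ (c' / 4) with hP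
  have hP0 : 0 < P := by rw [hP]; positivity
  have hPc : (n:ℝ) ^ c' = P ^ 4 := by
    rw [hP, ← Real.rpow_natCast, ← Real.rpow_mul hnp.le]
    congr 1
    push_cast
    ring
  -- the logarithm
  have hlog4 : Real.log (4 * n) ≤ P ^ 2 / 4 := by
    have h1 : Real.log (4 * n) ≤ 2 * Real.log n := by
      have h2 : Real.log (4 * (n:ℝ)) = Real.log 4 + Real.log n := Real.log_mul (by norm_num) hnp.ne'
      have h3 : Real.log 4 ≤ Real.log n := Real.log_le_log (by norm_num) (by exact_mod_cast hn4)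
      linarith
    have h2 : Real.log n ≤ (n:ℝ) ^ (c' / 4) / (c' / 4) := Real.log_le_rpow_div hnp.le (by positivity)
    have h3 : (n:ℝ) ^ (c' / 4) / (c' / 4) = P * (4 / c') := by
      rw [← hP]
      field_simp
    rw [h3] at h2
    have h4 : P * (4 / c') ≤ P * (P / 8) := by
      refine mul_le_mul_of_nonneg_left ?_ hP0.le
      linarith
    nlinarith
  have hlpb : ∀ m : ℤ, m ≤ 4 * X → ‖lc m‖ ≤ P ^ 2 / 4 := by
    intro m hm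
    rw [lc, Complex.norm_real, Real.norm_eq_abs, Pool.Agent.Lib.H68T.lp]
    split_ifs with hpr
    · have hm1 : (1:ℤ) ≤ m := by
        have := hpr.pos
        omega
      have hm1' : (1:ℝ) ≤ (m:ℝ) := by exact_mod_cast hm1
      rw [abs_of_nonneg (Real.log_nonneg hm1')]
      refine le_trans (Real.log_le_log (by linarith) ?_) hlog4
      have h5 : (m:ℝ) ≤ 4 * (X:ℝ) := by exact_mod_cast hm
      have h6 : (X:ℝ) ≤ n := by exact_mod_cast hXn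
      linarith
    · rw [abs_zero]
      positivity
  have hLb : ∀ m : ℤ, (X:ℤ) ≤ m → m ≤ 4 * X → ‖Lc Q (X / Q ^ 2) m‖ ≤ P := by
    intro m h1 h2
    rw [Lc, Complex.norm_real, Real.norm_eq_abs]
    exact hL m h1 h2
  have hP24 : P ^ 2 ≤ P ^ 4 := pow_le_pow_right₀ (by linarith) (by norm_num)
  have hP4 : P ^ 2 / 4 ≤ P ^ 4 := by
    have := sq_nonneg P
    linarith
  have hPP4 : P ≤ P ^ 4 := by
    have h1 : P ^ 1 ≤ P ^ 4 := pow_le_pow_right₀ (by linarith) (by norm_num)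
    rwa [pow_one] at h1
  have hE : ∀ m : ℤ, (X:ℤ) ≤ m → m ≤ 4 * X → ‖Ec Q X m‖ ≤ (n:ℝ) ^ c' := by
    intro m h1 h2
    rw [hPc, Ec]
    refine (norm_sub_le _ _).trans ?_
    have a1 := hlpb m h2
    have a2 := hLb m h1 h2
    have a3 : P ≤ P ^ 2 / 8 := by nlinarith
    linarith
  have hf1 : Bd (fun x : ℤ => ((f x.toNat : ℝ) : ℂ)) := by
    intro x
    show ‖((f x.toNat : ℝ) : ℂ)‖ ≤ 1
    rw [Complex.norm_real, Real.norm_eq_abs]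
    exact hf _
  have hg1 : Bd (fun y : ℤ => if (Z:ℤ) ≤ y ∧ y < 2 * Z then ((g y.toNat : ℝ) : ℂ) else 0) := by
    intro y
    show ‖(if (Z:ℤ) ≤ y ∧ y < 2 * Z then ((g y.toNat : ℝ) : ℂ) else 0)‖ ≤ 1
    split_ifs
    · rw [Complex.norm_real, Real.norm_eq_abs]
      exact hg _
    · rw [norm_zero]
      exact zero_le_one
  have hg2 : Bd (fun y : ℤ => if (Z:ℤ) ≤ -y ∧ -y < 2 * Z then ((g (-y).toNat : ℝ) : ℂ) else 0) := by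
    intro y
    show ‖(if (Z:ℤ) ≤ -y ∧ -y < 2 * Z then ((g (-y).toNat : ℝ) : ℂ) else 0)‖ ≤ 1
    split_ifs
    · rw [Complex.norm_real, Real.norm_eq_abs]
      exact hg _
    · rw [norm_zero]
      exact zero_le_one
  have r1 := hO n hn0 Q X hQ hlog hX1 hXn hLK hF hE lc _ _
    (fun v _ hv => (hlpb v hv.le).trans (by rw [hPc]; exact hP4)) hf1 hg1
  have r2 := hO n hn0 Q X hQ hlog hX1 hXn hLK hF hE (Lc Q (X / Q ^ 2)) _ _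
    (fun v hv1 hv => (hLb v hv1.le hv.le).trans (by rw [hPc]; exact hPP4)) hf1 hg2
  have r3 := o2_split Q X Z hZX f g
  have r4 : |∑ x ∈ Ico (2 * X) (3 * X), ∑ y ∈ Ico Z (2 * Z), f x * g y * (kp x y - km (Lk Q (X / Q ^ 2)) x y)| ≤
      (n:ℝ) ^ (2 - c') + (n:ℝ) ^ (2 - c') := by
    rw [← Real.norm_eq_abs, ← Complex.norm_real, r3]
    exact (norm_add_le _ _).trans (add_le_add r1 r2)
  refine r4.trans ?_
  have r5 : (n:ℝ) ^ (2 - c' / 4) = (n:ℝ) ^ (2 - c') * P ^ 3 := by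
    rw [hP, ← Real.rpow_natCast, ← Real.rpow_mul hnp.le, ← Real.rpow_add hnp]
    congr 1
    push_cast
    ring
  rw [r5]
  have r6 : 0 ≤ (n:ℝ) ^ (2 - c') := Real.rpow_nonneg hnp.le _
  have r7 : (2:ℝ) ≤ P ^ 3 := by
    have : (8:ℝ) ^ 3 ≤ P ^ 3 := pow_le_pow_left₀ (by norm_num) hp2 3
    linarith
  nlinarith

end Pool.Agent.H9S
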