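import Pool.Agent.Lib.H9S.P1
/-!
CHUNK P2 (M). From `Λ` to `lp`.
`P2_diff`: `TF n Λ - TF n lc` is the form with the kernel `Λ - lp`, so the norm is at most
`∑_{x ∈ [1,n]} ∑_{y ∈ [1,n]} |Λ - lp|(x+y) ≤ n ∑_{m ∈ [1,2n]} |Λ - lp|(m) ≤ C n^(7/4)` (`P1_pp`; for fixed `x` the map `y ↦ x + y` is injective
into `Icc 1 (2n)`).
`P2_inv`: for `c1` let `c2'` be the constant of `INV`; put `c2 = min (c2' / 2) (1 / 8)`. If `FB g`: `|TF n lc| ≤ n^(2 - c2') + C n^(7/4) ≤ n^(2 - c2)`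
for `n` large (`n^(2-c2') ≤ n^(2-2 c2)`, `n^(7/4) ≤ n^(2 - 2 c2)`, and `(1 + C) n^(-c2) ≤ 1`). If `FB f`: `TF_swap` (H44W/U2):
`TF n lc W f g = TF n lc (fun v => W (-v)) g f`, apply the first case.
-/
namespace Pool.Agent.H9S
open Finset Pool.Agent.H44W
open Pool.Agent.Lib.H68T (lp)

theorem P2_diff : ∃ C : ℝ, 0 < C ∧ ∀ n : ℕ, 1 ≤ n → ∀ W f g : ℤ → ℂ, Bd W → Bd f → Bd g →
    ‖TF n (fun m => ((ArithmeticFunction.vonMangoldt m.toNat : ℝ) : ℂ)) W f g - TF n lc W f g‖ ≤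
      C * (n:ℝ) ^ (7 / 4 : ℝ) := by
  obtain ⟨C, hC, h⟩ := P1_pp
  refine ⟨C, hC, fun n hn W f g hW hf hg => ?_⟩
  have hn' : (0:ℝ) < n := by exact_mod_cast hn
  have h1 : TF n (fun m => ((ArithmeticFunction.vonMangoldt m.toNat : ℝ) : ℂ)) W f g -
      TF n lc W f g = ∑ x ∈ Icc (1:ℤ) n, ∑ y ∈ Icc (1:ℤ) n,
        f x * g y * (((ArithmeticFunction.vonMangoldt (x + y).toNat : ℝ) : ℂ) - lc (x + y)) *
          W (x - y) := by
    unfold TF
    rw [← Finset.sum_sub_distrib]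
    refine Finset.sum_congr rfl fun x _ => ?_
    rw [← Finset.sum_sub_distrib]
    refine Finset.sum_congr rfl fun y _ => ?_
    ring
  rw [h1]
  have h2 : ∀ x ∈ Icc (1:ℤ) n, ‖∑ y ∈ Icc (1:ℤ) n,
        f x * g y * (((ArithmeticFunction.vonMangoldt (x + y).toNat : ℝ) : ℂ) - lc (x + y)) *
          W (x - y)‖ ≤ C * (n:ℝ) ^ (3 / 4 : ℝ) := by
    intro x hx
    rw [Finset.mem_Icc] at hx
    refine le_trans ?_ (h n hn)
    refine (norm_sum_le _ _).trans ?_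
    have h3 : ∀ y ∈ Icc (1:ℤ) n,
        ‖f x * g y * (((ArithmeticFunction.vonMangoldt (x + y).toNat : ℝ) : ℂ) - lc (x + y)) *
          W (x - y)‖ ≤ |(ArithmeticFunction.vonMangoldt (x + y).toNat : ℝ) - lp (x + y)| := by
      intro y _
      have h4 : ‖((ArithmeticFunction.vonMangoldt (x + y).toNat : ℝ) : ℂ) - lc (x + y)‖ =
          |(ArithmeticFunction.vonMangoldt (x + y).toNat : ℝ) - lp (x + y)| := by
        unfold lc
        rw [← Complex.ofReal_sub, Complex.norm_real, Real.norm_eq_abs]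
      rw [norm_mul, norm_mul, norm_mul, h4]
      have h5 : ‖f x‖ * ‖g y‖ ≤ 1 := mul_le_one₀ (hf x) (norm_nonneg _) (hg y)
      have h6 := abs_nonneg ((ArithmeticFunction.vonMangoldt (x + y).toNat : ℝ) - lp (x + y))
      calc ‖f x‖ * ‖g y‖ * |(ArithmeticFunction.vonMangoldt (x + y).toNat : ℝ) - lp (x + y)| *
            ‖W (x - y)‖
          ≤ 1 * |(ArithmeticFunction.vonMangoldt (x + y).toNat : ℝ) - lp (x + y)| * 1 :=
            mul_le_mul (mul_le_mul_of_nonneg_right h5 h6) (hW _) (norm_nonneg _) (by positivity)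
        _ = _ := by ring
    refine (Finset.sum_le_sum h3).trans ?_
    have h7 : ∑ y ∈ Icc (1:ℤ) n,
        |(ArithmeticFunction.vonMangoldt (x + y).toNat : ℝ) - lp (x + y)| =
        ∑ m ∈ (Icc (1:ℤ) n).image (fun y => x + y),
          |(ArithmeticFunction.vonMangoldt m.toNat : ℝ) - lp m| := by
      rw [Finset.sum_image]
      intro a _ b _ hab
      exact add_left_cancel hab
    rw [h7]
    refine Finset.sum_le_sum_of_subset_of_nonneg ?_ (fun _ _ _ => abs_nonneg _)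
    intro m hm
    rw [Finset.mem_image] at hm
    obtain ⟨y, hy, rfl⟩ := hm
    rw [Finset.mem_Icc] at hy ⊢
    omega
  refine (norm_sum_le_of_le _ h2).trans ?_
  rw [Finset.sum_const, Int.card_Icc, nsmul_eq_mul]
  have h8 : (((n:ℤ) + 1 - 1).toNat : ℝ) = n := by
    have : ((n:ℤ) + 1 - 1).toNat = n := by omega
    rw [this]
  rw [h8]
  have h9 : (n:ℝ) ^ (7 / 4 : ℝ) = n * (n:ℝ) ^ (3 / 4 : ℝ) := by
    have h10 : (7 / 4 : ℝ) = 1 + 3 / 4 := by norm_num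
    rw [h10, Real.rpow_add hn', Real.rpow_one]
  rw [h9]
  exact le_of_eq (by ring)

theorem P2_inv (h : INV) : INVL := by
  intro c1 hc1
  obtain ⟨c, hc, n0, h0⟩ := h c1 hc1
  obtain ⟨C, hC, hd⟩ := P2_diff
  have hc2 : 0 < min (c / 2) (1 / 8) := lt_min (by linarith) (by norm_num)
  have hm1 : min (c / 2) (1 / 8) ≤ c / 2 := min_le_left _ _
  have hm2 : min (c / 2) (1 / 8 : ℝ) ≤ 1 / 8 := min_le_right _ _
  generalize min (c / 2) (1 / 8 : ℝ) = c2 at hc2 hm1 hm2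
  refine ⟨c2, hc2, max n0 (⌈(1 + C) ^ (1 / c2)⌉₊ + 1), fun n hn => ?_⟩
  have hn0 : n0 ≤ n := (le_max_left _ _).trans hn
  have hn1 : ⌈(1 + C) ^ (1 / c2)⌉₊ + 1 ≤ n := (le_max_right _ _).trans hn
  have hn2 : 1 ≤ n := by omega
  have hn3 : (1:ℝ) ≤ n := by exact_mod_cast hn2
  have hn4 : (1 + C) ^ (1 / c2) ≤ (n:ℝ) := by
    refine (Nat.le_ceil _).trans ?_
    exact_mod_cast (by omega : ⌈(1 + C) ^ (1 / c2)⌉₊ ≤ n)
  have hn5 : 1 + C ≤ (n:ℝ) ^ c2 := by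
    have h1 : ((1 + C) ^ (1 / c2)) ^ c2 ≤ (n:ℝ) ^ c2 :=
      Real.rpow_le_rpow (by positivity) hn4 hc2.le
    rwa [← Real.rpow_mul (by linarith), one_div, inv_mul_cancel₀ hc2.ne', Real.rpow_one] at h1
  have key : ∀ W f g : ℤ → ℂ, Bd W → Bd f → Bd g → FB (Icc (1:ℤ) n) g ((n:ℝ) ^ (1 - c1)) →
      ‖TF n lc W f g‖ ≤ (n:ℝ) ^ (2 - c2) := by
    intro W f g hW hf hg hfb
    have h1 := h0 n hn0 W f g hW hf hg hfb
    have h2 := hd n hn2 W f g hW hf hg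
    have h3 : ‖TF n lc W f g‖ ≤ (n:ℝ) ^ (2 - c) + C * (n:ℝ) ^ (7 / 4 : ℝ) := by
      have h4 : TF n lc W f g =
          TF n (fun m => ((ArithmeticFunction.vonMangoldt m.toNat : ℝ) : ℂ)) W f g -
          (TF n (fun m => ((ArithmeticFunction.vonMangoldt m.toNat : ℝ) : ℂ)) W f g -
            TF n lc W f g) := by ring
      rw [h4]
      exact (norm_sub_le _ _).trans (add_le_add h1 h2)
    refine h3.trans ?_
    have h5 : (n:ℝ) ^ (2 - c) ≤ (n:ℝ) ^ (2 - 2 * c2) :=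
      Real.rpow_le_rpow_of_exponent_le hn3 (by linarith)
    have h6 : (n:ℝ) ^ (7 / 4 : ℝ) ≤ (n:ℝ) ^ (2 - 2 * c2) :=
      Real.rpow_le_rpow_of_exponent_le hn3 (by linarith)
    have h7 : (n:ℝ) ^ (2 - c2) = (n:ℝ) ^ c2 * (n:ℝ) ^ (2 - 2 * c2) := by
      rw [← Real.rpow_add (by linarith)]
      congr 1
      ring
    have h8 : 0 ≤ (n:ℝ) ^ (2 - 2 * c2) := by positivity
    rw [h7]
    calc (n:ℝ) ^ (2 - c) + C * (n:ℝ) ^ (7 / 4 : ℝ)
        ≤ (n:ℝ) ^ (2 - 2 * c2) + C * (n:ℝ) ^ (2 - 2 * c2) :=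
          add_le_add h5 (mul_le_mul_of_nonneg_left h6 hC.le)
      _ = (1 + C) * (n:ℝ) ^ (2 - 2 * c2) := by ring
      _ ≤ (n:ℝ) ^ c2 * (n:ℝ) ^ (2 - 2 * c2) := mul_le_mul_of_nonneg_right hn5 h8
  intro W f g hW hf hg hfb
  rcases hfb with hfb | hfb
  · exact key W f g hW hf hg hfb
  · rw [TF_swap]
    exact key (fun v => W (-v)) g f (fun v => hW (-v)) hg hf hfb

end Pool.Agent.H9S
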