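import Pool.Agent.Lib.H9S.T1
/-!
CHUNK T2 (S/M). `INVL` on boxes. For `c1` put `c1' = min c1 1` and take `c2'`, `n0'` of `INVL` for `c1'`. Apply `INVL` with `4n` instead of `n`
(`n ≥ n0'`, `n ≥ 1`) to the functions of `T1_shift` (bounded by `1`: `W (· + 2a)`, and the cut off functions are `f (x + a)` or `0`);
`n^(1-c1) ≤ n^(1-c1') ≤ (4n)^(1-c1')` (`1 - c1' ≥ 0`), `T1_FBg` / `T1_FBf` with `4n`. Result `(4n)^(2-c2') ≤ n^(2-c2)` with `c2 = min c2' 1 / 2`: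
use `INVL` with its `c2'` replaced by `min c2' 1` (`(4n)^(2-c2') ≤ (4n)^(2 - min c2' 1)`), and
`(4n)^(2-2c2) = 4^(2-2c2) n^(2-2c2) ≤ 16 n^(2 - 2 c2) ≤ n^(2-c2)` for `16 ≤ n^c2`.
Casts: `((4 * n : ℕ) : ℤ) = 4 * n`.
-/
namespace Pool.Agent.H9S
open Finset Pool.Agent.H44W

theorem t2_mono {T : Finset ℤ} {g : ℤ → ℂ} {κ κ' : ℝ} (h : FB T g κ) (hk : κ ≤ κ') : FB T g κ' :=
  fun th => (h th).trans hk

theorem t2_large (c : ℝ) (hc : 0 < c) : ∃ N : ℕ, ∀ n : ℕ, N ≤ n → (16 : ℝ) ≤ (n : ℝ) ^ c := by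
  refine ⟨⌈(16 : ℝ) ^ (1 / c)⌉₊, fun n hn => ?_⟩
  have h1 : (16 : ℝ) ^ (1 / c) ≤ n := (Nat.le_ceil _).trans (by exact_mod_cast hn)
  have h2 : ((16 : ℝ) ^ (1 / c)) ^ c ≤ (n : ℝ) ^ c := Real.rpow_le_rpow (by positivity) h1 hc.le
  rw [← Real.rpow_mul (by norm_num), one_div_mul_cancel hc.ne', Real.rpow_one] at h2
  exact h2

theorem T2_box (h : INVL) : INVB := by
  intro c1 hc1
  obtain ⟨c2', hc2', n0', hn0'⟩ := h (min c1 1) (lt_min hc1 one_pos)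
  obtain ⟨c3, hc3⟩ : ∃ c3 : ℝ, c3 = min c2' 1 := ⟨_, rfl⟩
  have hc30 : 0 < c3 := by
    rw [hc3]
    exact lt_min hc2' one_pos
  obtain ⟨N, hN⟩ := t2_large (c3 / 2) (by positivity)
  refine ⟨c3 / 2, by positivity, max (max n0' N) 1, ?_⟩
  intro n hn a S T hS hT W f g hW hf hg hFB
  have n1 : n0' ≤ n := (le_max_left _ _).trans ((le_max_left _ _).trans hn)
  have n2 : N ≤ n := (le_max_right _ _).trans ((le_max_left _ _).trans hn)
  have n3 : 1 ≤ n := (le_max_right _ _).trans hn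
  have hnr : (1:ℝ) ≤ n := by exact_mod_cast n3
  have hn0 : (0:ℝ) < n := by linarith
  have hcast : ((4 * n : ℕ) : ℤ) = 4 * n := by push_cast; ring
  have hcastR : ((4 * n : ℕ) : ℝ) = 4 * n := by push_cast; ring
  have hS' : ∀ x ∈ S, a + 1 ≤ x ∧ x ≤ a + ((4 * n : ℕ) : ℤ) := by
    rw [hcast]
    exact hS
  have hT' : ∀ y ∈ T, 1 - a ≤ y ∧ y ≤ ((4 * n : ℕ) : ℤ) - a := by
    rw [hcast]
    exact hT
  rw [T1_shift (4 * n) a S T hS' hT']
  have hκ : (n:ℝ) ^ (1 - c1) ≤ ((4 * n : ℕ) : ℝ) ^ (1 - min c1 1) := by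
    have e1 : (n:ℝ) ^ (1 - c1) ≤ (n:ℝ) ^ (1 - min c1 1) :=
      Real.rpow_le_rpow_of_exponent_le hnr (by linarith [min_le_left c1 1])
    refine e1.trans (Real.rpow_le_rpow hn0.le ?_ (by linarith [min_le_right c1 1]))
    rw [hcastR]
    linarith
  have hmain := hn0' (4 * n) (by omega) (fun v => W (v + 2 * a)) (fun x => if x + a ∈ S then f (x + a) else 0)
    (fun y => if y - a ∈ T then g (y - a) else 0) (fun v => hW _) (fun x => by
      beta_reduce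
      split_ifs
      · exact hf _
      · rw [norm_zero]
        exact zero_le_one) (fun y => by
      beta_reduce
      split_ifs
      · exact hg _
      · rw [norm_zero]
        exact zero_le_one) (by
      rcases hFB with hg' | hf'
      · exact Or.inl (t2_mono (T1_FBg (4 * n) a T hT' g _ hg') hκ)
      · exact Or.inr (t2_mono (T1_FBf (4 * n) a S hS' f _ hf') hκ))
  refine hmain.trans ?_
  have h4n : (1:ℝ) ≤ ((4 * n : ℕ) : ℝ) := by
    rw [hcastR]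
    linarith
  have e1 : ((4 * n : ℕ) : ℝ) ^ (2 - c2') ≤ ((4 * n : ℕ) : ℝ) ^ (2 - c3) :=
    Real.rpow_le_rpow_of_exponent_le h4n (by rw [hc3]; linarith [min_le_left c2' 1])
  refine e1.trans ?_
  rw [hcastR, Real.mul_rpow (by norm_num) hn0.le]
  have e2 : (4:ℝ) ^ (2 - c3) ≤ 16 := by
    have e3 : (4:ℝ) ^ (2 - c3) ≤ (4:ℝ) ^ (2:ℝ) :=
      Real.rpow_le_rpow_of_exponent_le (by norm_num) (by linarith)
    refine e3.trans (le_of_eq ?_)
    norm_num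
  have e4 : (n:ℝ) ^ (2 - c3 / 2) = (n:ℝ) ^ (c3 / 2) * (n:ℝ) ^ (2 - c3) := by
    rw [← Real.rpow_add hn0]
    congr 1
    ring
  rw [e4]
  exact mul_le_mul_of_nonneg_right (e2.trans (hN n n2)) (Real.rpow_nonneg hn0.le _)

end Pool.Agent.H9S
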