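import Pool.Agent.Lib.H9S.O1
import Pool.Agent.Lib.H9S.O2
import Pool.Agent.Lib.H9S.P2
import Pool.Agent.Lib.H9S.T2
import Pool.Agent.Lib.H9S.K3
import Pool.Agent.Lib.H9S.E1
import Pool.Agent.Lib.H9S.BDL
import Pool.Agent.Lib.H59T.UV
import Pool.Agent.Lib.H18Q.R1
/-!
H9S, final theorem of module STAR: the operator bound for `lp(x+y) lp(x-y) - Lk(x+y) Lk(x-y)`.
-/
namespace Pool.Agent.H9S
open Finset
open Pool.Agent.H44W (ee)
open Pool.Agent.Lib.H68T (Lk)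
open Pool.Agent.Lib.H18Q (RegP fourier_smallP)
open Pool.Agent.Lib.H96G (kp km)

/-- The operator bound and the bound for the projections, with the absolute constant `K0` in the regime. -/
def OPS (K0 : ℝ) : Prop :=
  ∀ Cr : ℝ, 1 ≤ Cr → ∃ c : ℝ, 0 < c ∧ ∃ n0 : ℕ, ∀ n Q : ℕ, n0 ≤ n →
    K0 * Real.log Q ≤ Real.log n → Real.log n ≤ Cr * Real.log Q → ∀ X Z : ℕ, RegP K0 Q X →
    1 ≤ Z → 2 * Z ≤ X → X ≤ n → ∀ f g : ℕ → ℝ, (∀ x, |f x| ≤ 1) → (∀ y, |g y| ≤ 1) →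
    |∑ x ∈ Ico (2 * X) (3 * X), ∑ y ∈ Ico Z (2 * Z), f x * g y * (kp x y - km (Lk Q (X / Q ^ 2)) x y)| ≤
      (n:ℝ) ^ (2 - c)

/-- **STAR.** -/
theorem OP_main (hI : INV) : ∃ K0 : ℝ, 1 ≤ K0 ∧ ∀ K : ℝ, K0 ≤ K → OPS K := by
  obtain ⟨K1, hK1, hbd⟩ := BDL_bd
  obtain ⟨K2, C2, hK2, hC2, hLK⟩ := Pool.Agent.Lib.H59T.LK_box
  obtain ⟨K3, hfs⟩ := fourier_smallP
  have hO2 := O2_two (O1_op (E1_inv (K3_inv (T2_box (P2_inv hI)))))
  refine ⟨max (max K1 K2) (max K3 4), hK1.trans ((le_max_left _ _).trans (le_max_left _ _)), fun K hK Cr hCr => ?_⟩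
  have hKK1 : K1 ≤ K := ((le_max_left _ _).trans (le_max_left _ _)).trans hK
  have hKK2 : K2 ≤ K := ((le_max_right _ _).trans (le_max_left _ _)).trans hK
  have hKK3 : K3 ≤ K := ((le_max_left _ _).trans (le_max_right _ _)).trans hK
  have hKK4 : (4:ℝ) ≤ K := ((le_max_right _ _).trans (le_max_right _ _)).trans hK
  have hK0 : 0 ≤ K := by linarith
  obtain ⟨c, hc, n1, h1⟩ := hO2 Cr C2 hCr hC2
  obtain ⟨n2, h2⟩ := hbd c hc
  refine ⟨c, hc, max (max n1 n2) 1, fun n Q hn hKQ hlog X Z hreg hZ hZX hXn f g hf hg => ?_⟩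
  have hn1 : n1 ≤ n := by omega
  have hn2 : n2 ≤ n := by omega
  have hnp : (0:ℝ) < n := by
    have : 0 < n := by omega
    exact_mod_cast this
  have hX1 : 1 ≤ X := by omega
  have hQ4 : (4:ℝ) ≤ Q := (hreg.mono hK0 hKK4).Q_ge (by norm_num)
  have hQ2 : 2 ≤ Q := by
    have : (2:ℝ) ≤ Q := by linarith
    exact_mod_cast this
  have hQn : Q ≤ n := by
    have hlQ : 0 ≤ Real.log Q := Real.log_natCast_nonneg Q
    have h3 : Real.log Q ≤ Real.log n := by nlinarith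
    have h4 : (Q:ℝ) ≤ n := (Real.log_le_log_iff (by linarith) hnp).1 h3
    exact_mod_cast h4
  refine h1 n hn1 Q X Z hQ2 hlog hZ hZX hXn ?_ ?_ ?_ f g hf hg
  · intro Q' hQ1 hQQ W f g hW hf hg
    have h3 := hLK Q Q' X (hreg.mono hK0 hKK2) hQ1 hQQ f g W hf hg hW
    refine le_trans (le_of_eq ?_) h3
    rw [BF, Sx, Sy]
    simp only [Lc, Complex.ofReal_sub]
  · intro th u v hu hv
    have h3 := hfs Q X (hreg.mono hK0 hKK3) th u v hu hv
    refine le_trans (le_of_eq ?_) h3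
    congr 1
    refine Finset.sum_congr rfl fun m _ => ?_
    rw [Ec, lc, Lc, Complex.ofReal_sub, mul_comm th (m:ℝ)]
    rfl
  · exact h2 n hn2 Q X (hreg.mono hK0 hKK1) (by omega) hQn hX1 hXn

end Pool.Agent.H9S
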