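import Pool.Agent.Lib.H9S.Defs
/-!
CHUNK D1 (M). Dual function (abstract kernel). `D y = ∑_{x ∈ S} f x * Kf x y`, `‖D y‖ ≤ L` on `T`. Put `g₁ y = conj (D y) / L` for `y ∈ T`, `0` else: `Bd g₁`.
`∑_x ∑_y f g₁ Kf = ∑_{y ∈ T} ‖D y‖² / L` (real, nonnegative). Cauchy-Schwarz: `A² ≤ (∑_{y ∈ T} ‖g y‖ ‖D y‖)² ≤ #T ∑_{y ∈ T} ‖D y‖²`, so
`‖∑∑ f g₁ Kf‖ ≥ A² / (#T L) ≥ δ` (`T` nonempty, `hδ`). `hinv` gives `th` with `κ ≤ ‖∑_{y ∈ T} g₁ y ee(th y)‖`, and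
`L ‖∑_y g₁ y ee(th y)‖ = ‖∑_y conj(D y) ee(th y)‖ = ‖∑_y D y ee(-(th y))‖` (`ee_neg`, `Complex.norm_conj`): the conclusion holds with `-th`.
-/
namespace Pool.Agent.H9S
open Finset Pool.Agent.H44W

theorem D1_dual (S T : Finset ℤ) (hTn : T.Nonempty) (Kf : ℤ → ℤ → ℂ) (L : ℝ) (hL : 0 < L) (f : ℤ → ℂ)
    (hK : ∀ y ∈ T, ‖∑ x ∈ S, f x * Kf x y‖ ≤ L) (δ κ A : ℝ) (hA : 0 ≤ A)
    (hinv : ∀ g : ℤ → ℂ, Bd g → δ ≤ ‖∑ x ∈ S, ∑ y ∈ T, f x * g y * Kf x y‖ →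
      ∃ th : ℝ, κ ≤ ‖∑ y ∈ T, g y * ee (th * y)‖)
    (g : ℤ → ℂ) (hg : Bd g) (hT : A ≤ ‖∑ x ∈ S, ∑ y ∈ T, f x * g y * Kf x y‖)
    (hδ : δ * (T.card * L) ≤ A ^ 2) :
    ∃ th : ℝ, κ * L ≤ ‖∑ x ∈ S, ∑ y ∈ T, f x * ee (th * y) * Kf x y‖ := by
  obtain ⟨D, hD⟩ : ∃ D : ℤ → ℂ, ∀ y, D y = ∑ x ∈ S, f x * Kf x y := ⟨_, fun _ => rfl⟩
  have hswap : ∀ g : ℤ → ℂ, ∑ x ∈ S, ∑ y ∈ T, f x * g y * Kf x y = ∑ y ∈ T, g y * D y := by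
    intro g
    rw [sum_comm]
    refine sum_congr rfl fun y _ => ?_
    rw [hD, mul_sum]
    refine sum_congr rfl fun x _ => ?_
    ring
  have hDL : ∀ y ∈ T, ‖D y‖ ≤ L := fun y hy => by
    rw [hD]
    exact hK y hy
  obtain ⟨g1, hg1⟩ : ∃ g1 : ℤ → ℂ, ∀ y, g1 y = if y ∈ T then (starRingEnd ℂ) (D y) / (L : ℂ) else 0 := ⟨_, fun _ => rfl⟩
  have hg1B : Bd g1 := by
    intro y
    rw [hg1]
    split_ifs with hy
    · rw [norm_div, Complex.norm_conj, Complex.norm_real, Real.norm_eq_abs, abs_of_pos hL, div_le_one hL]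
      exact hDL y hy
    · rw [norm_zero]
      exact zero_le_one
  have hsum : ∑ y ∈ T, g1 y * D y = (((∑ y ∈ T, ‖D y‖ ^ 2) / L : ℝ) : ℂ) := by
    rw [sum_div, Complex.ofReal_sum]
    refine sum_congr rfl fun y hy => ?_
    rw [hg1, if_pos hy, div_mul_eq_mul_div, mul_comm, Complex.mul_conj, Complex.normSq_eq_norm_sq]
    push_cast
    ring
  have hTc : (0 : ℝ) < T.card := by exact_mod_cast card_pos.2 hTn
  have hCS : A ^ 2 ≤ T.card * ∑ y ∈ T, ‖D y‖ ^ 2 := by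
    have h1 : A ≤ ∑ y ∈ T, ‖D y‖ := by
      refine hT.trans ?_
      rw [hswap]
      refine (norm_sum_le _ _).trans (sum_le_sum fun y _ => ?_)
      rw [norm_mul]
      exact mul_le_of_le_one_left (norm_nonneg _) (hg y)
    have h2 : (∑ y ∈ T, ‖D y‖) ^ 2 ≤ T.card * ∑ y ∈ T, ‖D y‖ ^ 2 := sq_sum_le_card_mul_sum_sq
    exact (pow_le_pow_left₀ hA h1 2).trans h2
  have hδ' : δ ≤ ‖∑ x ∈ S, ∑ y ∈ T, f x * g1 y * Kf x y‖ := by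
    rw [hswap, hsum, Complex.norm_real, Real.norm_eq_abs, abs_of_nonneg (by positivity)]
    rw [le_div_iff₀ hL]
    have h1 : (δ * L) * T.card ≤ (∑ y ∈ T, ‖D y‖ ^ 2) * T.card := by nlinarith
    exact le_of_mul_le_mul_right h1 hTc
  obtain ⟨th, hth⟩ := hinv g1 hg1B hδ'
  refine ⟨-th, ?_⟩
  rw [hswap]
  have h1 : ∑ y ∈ T, g1 y * ee (th * y) = (starRingEnd ℂ) (∑ y ∈ T, ee (-th * y) * D y) / (L : ℂ) := by
    rw [map_sum, sum_div]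
    refine sum_congr rfl fun y hy => ?_
    rw [hg1, if_pos hy, map_mul]
    have e1 : (starRingEnd ℂ) (ee (-th * y)) = ee (th * y) := by
      have e2 : -th * (y : ℝ) = -(th * y) := by ring
      rw [e2, ee_neg, Complex.conj_conj]
    rw [e1]
    ring
  rw [h1, norm_div, Complex.norm_conj, Complex.norm_real, Real.norm_eq_abs, abs_of_pos hL, le_div_iff₀ hL] at hth
  exact hth

end Pool.Agent.H9S
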