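import Mathlib
import Pool.Agent.Lib.H44W.E1
import Pool.Agent.Lib.H44W.U2
import Pool.Agent.Lib.H68T.Defs

/-!
# Project H9S (MP_443e5f_co, candidate T, module STAR): from the inverse theorem for `Λ` to the operator bound

`INV`: if `T(Λ; W, f, g)` is large, `g` has a large Fourier coefficient (module A + B + C + D, proved in `H37T`).
Here: the same for `lp`, for the projections `Lk Q' Y = lp * kern` of low level `Q'` (translation), hence (with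
`H59T.LK_box`) for `E = lp - Lk Q (X / Q^2)`; dual functions; exponential sums of `E`. See `PROOF.md`.
-/

namespace Pool.Agent.H9S

open Finset Pool.Agent.H44W
open Pool.Agent.Lib.H68T (lp Lk kern tent cq)

noncomputable section

/-- Functions bounded by `1`. -/
def Bd (f : ℤ → ℂ) : Prop := ∀ x, ‖f x‖ ≤ 1

/-- All Fourier coefficients of `g` over `T` are at most `κ`. -/
def FB (T : Finset ℤ) (g : ℤ → ℂ) (κ : ℝ) : Prop := ∀ th : ℝ, ‖∑ z ∈ T, g z * ee (th * z)‖ ≤ κ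

/-- The bilinear form over `S × T`. -/
def BF (S T : Finset ℤ) (F W f g : ℤ → ℂ) : ℂ := ∑ x ∈ S, ∑ y ∈ T, f x * g y * F (x + y) * W (x - y)

/-- The inverse theorem for the von Mangoldt function (proved in `H37T`, the same proposition). -/
def INV : Prop :=
  ∀ c1 : ℝ, 0 < c1 → ∃ c2 : ℝ, 0 < c2 ∧ ∃ n0 : ℕ, ∀ n : ℕ, n0 ≤ n → ∀ W f g : ℤ → ℂ,
    (∀ x, ‖W x‖ ≤ 1) → (∀ x, ‖f x‖ ≤ 1) → (∀ x, ‖g x‖ ≤ 1) →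
    (∀ th : ℝ, ‖∑ z ∈ Icc (1:ℤ) n, g z * ee (th * z)‖ ≤ (n:ℝ) ^ (1 - c1)) →
    ‖TF n (fun m => ((ArithmeticFunction.vonMangoldt m.toNat : ℝ) : ℂ)) W f g‖ ≤ (n:ℝ) ^ (2 - c2)

/-- `lp` with complex values. -/
def lc (m : ℤ) : ℂ := ((lp m : ℝ) : ℂ)

/-- The projection with complex values. -/
def Lc (Q Y : ℕ) (m : ℤ) : ℂ := ((Lk Q Y m : ℝ) : ℂ)

/-- The error `E = lp - Lk Q (X / Q^2)`. -/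
def Ec (Q X : ℕ) (m : ℤ) : ℂ := lc m - Lc Q (X / Q ^ 2) m

/-- The range of `x`. -/
def Sx (X : ℕ) : Finset ℤ := Ico (2 * (X:ℤ)) (3 * X)

/-- The range of `y`. -/
def Sy (X : ℕ) : Finset ℤ := Ioo (-(X:ℤ)) X

/-- The inverse theorem for `lp`: `f` or `g` without large Fourier coefficient. -/
def INVL : Prop :=
  ∀ c1 : ℝ, 0 < c1 → ∃ c2 : ℝ, 0 < c2 ∧ ∃ n0 : ℕ, ∀ n : ℕ, n0 ≤ n → ∀ W f g : ℤ → ℂ,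
    Bd W → Bd f → Bd g →
    (FB (Icc (1:ℤ) n) g ((n:ℝ) ^ (1 - c1)) ∨ FB (Icc (1:ℤ) n) f ((n:ℝ) ^ (1 - c1))) →
    ‖TF n lc W f g‖ ≤ (n:ℝ) ^ (2 - c2)

/-- The inverse theorem for `lp` on boxes. -/
def INVB : Prop :=
  ∀ c1 : ℝ, 0 < c1 → ∃ c2 : ℝ, 0 < c2 ∧ ∃ n0 : ℕ, ∀ n : ℕ, n0 ≤ n → ∀ (a : ℤ) (S T : Finset ℤ),
    (∀ x ∈ S, a + 1 ≤ x ∧ x ≤ a + 4 * n) → (∀ y ∈ T, 1 - a ≤ y ∧ y ≤ 4 * n - a) → ∀ W f g : ℤ → ℂ,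
    Bd W → Bd f → Bd g → (FB T g ((n:ℝ) ^ (1 - c1)) ∨ FB S f ((n:ℝ) ^ (1 - c1))) →
    ‖BF S T lc W f g‖ ≤ (n:ℝ) ^ (2 - c2)

/-- The inverse theorem for `lp` and for the projections of level `Q'` (loss `Q'^3`). -/
def INVK : Prop :=
  ∀ c1 : ℝ, 0 < c1 → ∃ c2 : ℝ, 0 < c2 ∧ ∃ n0 : ℕ, ∀ n : ℕ, n0 ≤ n → ∀ X : ℕ, 1 ≤ X → X ≤ n →
    ∀ W f g : ℤ → ℂ, Bd W → Bd f → Bd g →
    (FB (Sy X) g ((n:ℝ) ^ (1 - c1)) ∨ FB (Sx X) f ((n:ℝ) ^ (1 - c1))) →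
    ‖BF (Sx X) (Sy X) lc W f g‖ ≤ (n:ℝ) ^ (2 - c2) ∧
    ∀ Q Y : ℕ, Y < X → ‖BF (Sx X) (Sy X) (Lc Q Y) W f g‖ ≤ (Q:ℝ) ^ 3 * (n:ℝ) ^ (2 - c2)

/-- The difference of the projections of the levels `Q` and `Q' ≤ Q` (theorem `H59T.LK_box`) at fixed `Q`, `X`. -/
def LKd (C : ℝ) (Q X : ℕ) : Prop :=
  ∀ Q' : ℕ, 1 ≤ Q' → Q' ≤ Q → ∀ W f g : ℤ → ℂ, Bd W → Bd f → Bd g →
    ‖BF (Sx X) (Sy X) (fun m => Lc Q (X / Q ^ 2) m - Lc Q' (X / Q ^ 2) m) W f g‖ ≤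
      C * (X:ℝ) ^ 2 * (Q':ℝ) ^ (-(1 / 1152 : ℝ))

/-- The inverse theorem for `E`. The constant `c2` depends only on `Cr` (`log n ≤ Cr log Q`), `C` and `c1`. -/
def INVE : Prop :=
  ∀ Cr C c1 : ℝ, 1 ≤ Cr → 0 < C → 0 < c1 → ∃ c2 : ℝ, 0 < c2 ∧ ∃ n0 : ℕ, ∀ n : ℕ, n0 ≤ n →
    ∀ Q X : ℕ, 2 ≤ Q → Real.log n ≤ Cr * Real.log Q → 1 ≤ X → X ≤ n → LKd C Q X →
    ∀ W f g : ℤ → ℂ, Bd W → Bd f → Bd g →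
    (FB (Sy X) g ((n:ℝ) ^ (1 - c1)) ∨ FB (Sx X) f ((n:ℝ) ^ (1 - c1))) →
    ‖BF (Sx X) (Sy X) (Ec Q X) W f g‖ ≤ (n:ℝ) ^ (2 - c2)

/-- The operator bound for one weight `W` bounded by `n^c`. -/
def OPW : Prop :=
  ∀ Cr C : ℝ, 1 ≤ Cr → 0 < C → ∃ c : ℝ, 0 < c ∧ ∃ n0 : ℕ, ∀ n : ℕ, n0 ≤ n →
    ∀ Q X : ℕ, 2 ≤ Q → Real.log n ≤ Cr * Real.log Q → 1 ≤ X → X ≤ n → LKd C Q X →
    (∀ th : ℝ, ∀ u v : ℤ, (X:ℤ) ≤ u → v ≤ 4 * X →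
      ‖∑ m ∈ Ico u v, Ec Q X m * ee (th * m)‖ ≤ X * (Q:ℝ) ^ (-(1 / 4) : ℝ)) →
    (∀ m : ℤ, (X:ℤ) ≤ m → m ≤ 4 * X → ‖Ec Q X m‖ ≤ (n:ℝ) ^ c) →
    ∀ W f g : ℤ → ℂ, (∀ v : ℤ, (X:ℤ) < v → v < 4 * X → ‖W v‖ ≤ (n:ℝ) ^ c) → Bd f → Bd g →
    ‖BF (Sx X) (Sy X) (Ec Q X) W f g‖ ≤ (n:ℝ) ^ (2 - c)

end

end Pool.Agent.H9S
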