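import Pool.Agent.Lib.H9S.Defs
/-!
CHUNK K1 (S/M). Mass of the kernel. `kern Q Y z = tent Y z * ∑_{q ∈ Icc 1 Q} cq q z`. `0 ≤ tent Y z`, `∑_{|z| < Y} tent Y z = 1` for `Y ≥ 1` (copy
the short proof of `H68T.DB_tent_count`, `DB_tent_sum` in Lib/H68T/DB.lean lines 44 to 100, that file is heavy: do not import it). `Y = 0`: empty
sum. `|cq q z| ≤ ∑_{d ∣ q} d ≤ q * q` (`|μ| ≤ 1`, `d ≤ q`, at most `q` divisors: `Nat.card_divisors_le_self` or `divisors ⊆ Icc 1 q`), so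
`|∑_{q ≤ Q} cq q z| ≤ ∑_{q ≤ Q} q² ≤ Q * Q² = Q³`.
-/
namespace Pool.Agent.H9S
open Finset Pool.Agent.H44W
open Pool.Agent.Lib.H68T (lp Lk kern tent cq)

theorem k1_tent_count (Y : ℕ) : ∑ z ∈ Ioo (-(Y : ℤ)) Y, ((Y : ℝ) - |(z : ℝ)|) = (Y : ℝ) ^ 2 := by
  induction Y with
  | zero => simp
  | succ Y ih =>
    have e1 : Ioo (-((Y + 1 : ℕ) : ℤ)) ((Y + 1 : ℕ) : ℤ) = Icc (-(Y : ℤ)) Y := by
      ext z
      simp only [mem_Ioo, mem_Icc]
      push_cast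
      omega
    rw [e1]
    have e2 : ∑ z ∈ Icc (-(Y : ℤ)) Y, (((Y + 1 : ℕ) : ℝ) - |(z : ℝ)|) =
        ∑ z ∈ Icc (-(Y : ℤ)) Y, ((Y : ℝ) - |(z : ℝ)|) + ∑ z ∈ Icc (-(Y : ℤ)) Y, (1 : ℝ) := by
      rw [← sum_add_distrib]
      refine sum_congr rfl fun z _ => ?_
      push_cast
      ring
    rw [e2]
    have e3 : ∑ z ∈ Icc (-(Y : ℤ)) Y, ((Y : ℝ) - |(z : ℝ)|) =
        ∑ z ∈ Ioo (-(Y : ℤ)) Y, ((Y : ℝ) - |(z : ℝ)|) := by
      symm
      apply sum_subset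
      · intro z hz
        rw [mem_Ioo] at hz
        rw [mem_Icc]
        omega
      · intro z hz hz'
        rw [mem_Icc] at hz
        rw [mem_Ioo] at hz'
        have h1 : z = Y ∨ z = -Y := by omega
        rcases h1 with h | h
        · rw [h]; simp
        · rw [h]; simp
    rw [e3, ih, sum_const, Int.card_Icc, nsmul_eq_mul, mul_one]
    have e4 : ((((Y : ℤ) + 1 - -(Y : ℤ)).toNat : ℕ) : ℝ) = 2 * Y + 1 := by
      have : ((Y : ℤ) + 1 - -(Y : ℤ)).toNat = 2 * Y + 1 := by omega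
      rw [this]; push_cast; ring
    rw [e4]
    push_cast
    ring

theorem k1_tent_sum (Y : ℕ) (hY : 1 ≤ Y) : ∑ z ∈ Ioo (-(Y : ℤ)) Y, tent Y z = 1 := by
  have hY0 : (0 : ℝ) < Y := by exact_mod_cast hY
  have h1 : ∑ z ∈ Ioo (-(Y : ℤ)) Y, tent Y z =
      (∑ z ∈ Ioo (-(Y : ℤ)) Y, ((Y : ℝ) - |(z : ℝ)|)) / (Y : ℝ) ^ 2 := by
    rw [sum_div]
    refine sum_congr rfl fun z hz => ?_
    rw [mem_Ioo] at hz
    unfold tent
    rw [max_eq_right]
    have : |(z : ℝ)| ≤ Y := by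
      rw [abs_le]
      constructor
      · exact_mod_cast hz.1.le
      · exact_mod_cast hz.2.le
    linarith
  rw [h1, k1_tent_count]
  exact div_self (by positivity)

theorem k1_tent_nonneg (Y : ℕ) (z : ℤ) : 0 ≤ tent Y z := by
  unfold tent
  exact div_nonneg (le_max_left _ _) (sq_nonneg _)

theorem k1_cq (q : ℕ) (z : ℤ) : |cq q z| ≤ (q : ℝ) * q := by
  unfold cq
  refine (abs_sum_le_sum_abs _ _).trans ?_
  have h1 : ∀ d ∈ q.divisors.filter (fun d : ℕ => (d : ℤ) ∣ z),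
      |(d : ℝ) * (ArithmeticFunction.moebius (q / d) : ℝ)| ≤ q := by
    intro d hd
    have hd1 := Nat.divisor_le (mem_filter.1 hd).1
    rw [abs_mul, Nat.abs_cast]
    have h2 : |(ArithmeticFunction.moebius (q / d) : ℝ)| ≤ 1 := by
      have := ArithmeticFunction.abs_moebius_le_one (n := q / d)
      exact_mod_cast this
    have h3 : (d : ℝ) ≤ q := by exact_mod_cast hd1
    calc (d : ℝ) * |(ArithmeticFunction.moebius (q / d) : ℝ)| ≤ q * 1 :=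
          mul_le_mul h3 h2 (abs_nonneg _) (Nat.cast_nonneg q)
      _ = q := mul_one _
  refine (sum_le_card_nsmul _ _ _ h1).trans ?_
  rw [nsmul_eq_mul]
  refine mul_le_mul_of_nonneg_right ?_ (Nat.cast_nonneg q)
  have h2 : (q.divisors.filter (fun d : ℕ => (d : ℤ) ∣ z)).card ≤ q :=
    (card_filter_le _ _).trans (Nat.card_divisors_le_self q)
  exact_mod_cast h2

theorem K1_mass (Q Y : ℕ) : ∑ z ∈ Ioo (-(Y:ℤ)) Y, |kern Q Y z| ≤ (Q:ℝ) ^ 3 := by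
  have h1 : ∀ z : ℤ, |∑ q ∈ Icc 1 Q, cq q z| ≤ (Q : ℝ) ^ 3 := by
    intro z
    refine (abs_sum_le_sum_abs _ _).trans ?_
    have h2 : ∀ q ∈ Icc 1 Q, |cq q z| ≤ (Q : ℝ) ^ 2 := by
      intro q hq
      have h3 : (q : ℝ) ≤ Q := by exact_mod_cast (mem_Icc.1 hq).2
      have h4 := k1_cq q z
      have h5 : (0 : ℝ) ≤ q := Nat.cast_nonneg q
      nlinarith
    refine (sum_le_card_nsmul _ _ _ h2).trans (le_of_eq ?_)
    rw [nsmul_eq_mul, Nat.card_Icc, Nat.add_sub_cancel]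
    ring
  rcases Nat.eq_zero_or_pos Y with hY | hY
  · subst hY
    have e1 : Ioo (-((0 : ℕ) : ℤ)) ((0 : ℕ) : ℤ) = ∅ := by
      rw [Nat.cast_zero, neg_zero]
      exact Ioo_self _
    rw [e1, sum_empty]
    positivity
  · have h2 : ∀ z ∈ Ioo (-(Y:ℤ)) Y, |kern Q Y z| ≤ tent Y z * (Q : ℝ) ^ 3 := by
      intro z _
      unfold kern
      rw [abs_mul, abs_of_nonneg (k1_tent_nonneg Y z)]
      exact mul_le_mul_of_nonneg_left (h1 z) (k1_tent_nonneg Y z)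
    refine (sum_le_sum h2).trans ?_
    rw [← sum_mul, k1_tent_sum Y hY, one_mul]

end Pool.Agent.H9S
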