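import Pool.Agent.Lib.H9S.Defs
import Pool.Agent.Lib.H44W.U3
/-!
CHUNK X1 (M). Two linear phases. Group the sum by `v = x - y ∈ (X, 4X)` (at most `3X` values; `W v` of norm `≤ M`): for fixed `v` the `x` with
`x ∈ [2X, 3X)`, `x - v ∈ (-X, X)` form an interval `Ico α β`, `α = max (2X) (v - X + 1)`, `β = min (3X) (v + X)`, and the terms are
`ee(a x) ee(b (x - v)) F(2x - v)`. `X1_par`: `m = 2x - v` runs over the `m ≡ v mod 2` in `Ico (2α - v) (2β - v)`,
`x = (m + v)/2`, and the indicator of `m ≡ v` is `(1 + ee((m - v)/2))/2` (`ee_half`), so the sum is the mean of two sums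
`∑ F m ee(γ m)` over the whole interval (times constants of norm 1), each at most `τ`. (The proof of `H44W.one_pair_v`, file
Lib/H44W/U3.lean, is the same argument, `u3_term` there may be imported.) The interval is inside `[X, 4X]`: `2α - v = α + (α - v) ≥ 2X - X + 1`,
`2β - v = β + (β - v) ≤ 3X + X`. Total `≤ 3X * M * τ` (`0 ≤ τ` from `hF` with the empty interval).
-/
namespace Pool.Agent.H9S
open Finset Pool.Agent.H44W

theorem X1_par (F : ℤ → ℂ) (τ : ℝ) (α β v : ℤ)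
    (hF : ∀ th : ℝ, ‖∑ m ∈ Ico (2 * α - v) (2 * β - v), F m * ee (th * m)‖ ≤ τ) (a b : ℝ) :
    ‖∑ x ∈ Ico α β, ee (a * x) * ee (b * (x - v)) * F (2 * x - v)‖ ≤ τ := by
  have e1 : ∑ x ∈ Ico α β, ee (a * x) * ee (b * (x - v)) * F (2 * x - v)
      = ∑ m ∈ (Ico (2 * α - v) (2 * β - v)).filter (fun m => Even (m - v)),
          F m * ee (a * ((m + v) / 2) + b * ((m - v) / 2)) := by
    refine Finset.sum_nbij' (fun x => 2 * x - v) (fun m => (m + v) / 2) ?_ ?_ ?_ ?_ ?_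
    · intro x hx
      have h3 := Finset.mem_Ico.1 hx
      refine Finset.mem_filter.2 ⟨Finset.mem_Ico.2 ⟨by omega, by omega⟩, ?_⟩
      exact ⟨x - v, by ring⟩
    · intro m hm
      obtain ⟨h3, k, hk⟩ := Finset.mem_filter.1 hm
      have h4 := Finset.mem_Ico.1 h3
      exact Finset.mem_Ico.2 ⟨by omega, by omega⟩
    · intro x _
      omega
    · intro m hm
      obtain ⟨h3, k, hk⟩ := Finset.mem_filter.1 hm
      omega
    · intro x _
      rw [← ee_add, mul_comm (F (2 * x - v))]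
      congr 2
      push_cast
      ring
  rw [e1, Finset.sum_filter, Finset.sum_congr rfl fun m _ => u3_term v m a b (F m), Finset.sum_add_distrib,
    ← Finset.mul_sum, ← Finset.mul_sum]
  refine (norm_add_le _ _).trans ?_
  rw [norm_mul, norm_mul, norm_mul, norm_mul, norm_mul, norm_ee, norm_ee, norm_div, norm_one, Complex.norm_ofNat]
  have h6 := hF ((a + b) / 2)
  have h7 := hF ((a + b) / 2 + 1 / 2)
  linarith

theorem X1_exp (X : ℕ) (F W : ℤ → ℂ) (M τ a b : ℝ) (hM : 0 ≤ M)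
    (hW : ∀ v : ℤ, (X:ℤ) < v → v < 4 * X → ‖W v‖ ≤ M)
    (hF : ∀ th : ℝ, ∀ u v : ℤ, (X:ℤ) ≤ u → v ≤ 4 * X → ‖∑ m ∈ Ico u v, F m * ee (th * m)‖ ≤ τ) :
    ‖BF (Sx X) (Sy X) F W (fun x => ee (a * x)) (fun y => ee (b * y))‖ ≤ 3 * X * M * τ := by
  have hX0 : (0:ℤ) ≤ X := Int.natCast_nonneg X
  have hτ : 0 ≤ τ := by
    have h := hF 0 X X le_rfl (by omega)
    rwa [Finset.Ico_self, Finset.sum_empty, norm_zero] at h
  have h1 : ∀ x ∈ Sx X, ∑ y ∈ Sy X, ee (a * x) * ee (b * y) * F (x + y) * W (x - y)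
      = ∑ v ∈ Ioo (X:ℤ) (4 * X), if x - v ∈ Sy X then W v * (ee (a * x) * ee (b * (x - v)) * F (2 * x - v)) else 0 := by
    intro x hx
    have hx' := Finset.mem_Ico.1 hx
    rw [← Finset.sum_filter]
    refine Finset.sum_nbij' (fun y => x - y) (fun v => x - v) ?_ ?_ ?_ ?_ ?_
    · intro y hy
      have hy' := Finset.mem_Ioo.1 hy
      refine Finset.mem_filter.2 ⟨Finset.mem_Ioo.2 ⟨by omega, by omega⟩, ?_⟩
      have e : x - (x - y) = y := by ring
      rw [e]
      exact hy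
    · intro v hv
      exact (Finset.mem_filter.1 hv).2
    · intro y _
      ring
    · intro v _
      ring
    · intro y _
      have e1 : 2 * x - (x - y) = x + y := by ring
      have e2 : ((x:ℝ) - ((x - y : ℤ) : ℝ)) = y := by
        push_cast
        ring
      rw [e1, e2]
      ring
  have h2 : BF (Sx X) (Sy X) F W (fun x => ee (a * x)) (fun y => ee (b * y))
      = ∑ v ∈ Ioo (X:ℤ) (4 * X), W v * ∑ x ∈ Ico (max (2 * (X:ℤ)) (v - X + 1)) (min (3 * (X:ℤ)) (v + X)),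
          ee (a * x) * ee (b * (x - v)) * F (2 * x - v) := by
    unfold BF
    rw [Finset.sum_congr rfl h1, Finset.sum_comm]
    refine Finset.sum_congr rfl fun v _ => ?_
    rw [← Finset.sum_filter, Finset.mul_sum]
    refine Finset.sum_congr ?_ fun _ _ => rfl
    ext x
    unfold Sx Sy
    simp only [Finset.mem_filter, Finset.mem_Ico, Finset.mem_Ioo]
    omega
  rw [h2]
  have h3 : ∀ v ∈ Ioo (X:ℤ) (4 * X), ‖W v * ∑ x ∈ Ico (max (2 * (X:ℤ)) (v - X + 1)) (min (3 * (X:ℤ)) (v + X)),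
      ee (a * x) * ee (b * (x - v)) * F (2 * x - v)‖ ≤ M * τ := by
    intro v hv
    have hv' := Finset.mem_Ioo.1 hv
    rw [norm_mul]
    refine mul_le_mul (hW v hv'.1 hv'.2) (X1_par F τ _ _ v (fun th => hF th _ _ (by omega) (by omega)) a b)
      (norm_nonneg _) hM
  refine (norm_sum_le _ _).trans ((Finset.sum_le_sum h3).trans ?_)
  rw [Finset.sum_const, Int.card_Ioo, nsmul_eq_mul]
  have h4 : (((4 * (X:ℤ) - X - 1).toNat : ℕ) : ℝ) ≤ 3 * X := by
    have h5 : (4 * (X:ℤ) - X - 1).toNat ≤ 3 * X := by omega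
    exact_mod_cast h5
  have h6 : 0 ≤ M * τ := mul_nonneg hM hτ
  calc (((4 * (X:ℤ) - X - 1).toNat : ℕ) : ℝ) * (M * τ) ≤ 3 * X * (M * τ) := mul_le_mul_of_nonneg_right h4 h6
    _ = 3 * X * M * τ := by ring

end Pool.Agent.H9S
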