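import Pool.Agent.Lib.H9S.D1
import Pool.Agent.Lib.H9S.X1
/-!
CHUNK O1 (M/L). The operator bound for one weight. Fix `Cr, C`. Put `k1 = 1/(8 Cr)` and let `d1` be the constant of `INVE` for `(Cr, C, k1)`;
`k2 = min d1 1 / 8`, `d2` the constant of `INVE` for `(Cr, C, k2)`; `c = min (min d1 d2) (min (1/Cr) 1) / 100`. `n` large.
Suppose `‖BF (Ec) W f g‖ > n^(2-c)` (so `A = n^(2-c)` below). `S = Sx X`, `T = Sy X` (`T` is nonempty, `#T ≤ 2X ≤ 2n`, `#S = X ≤ n`),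
`Kf x y = Ec Q X (x+y) * W (x-y)`; for `x ∈ S`, `y ∈ T`: `x + y, x - y ∈ (X, 4X)`, so `‖Kf x y‖ ≤ n^(2c)`. `L = n * n^(2c)`.
Let `W₁ v = W v / n^c` for `X < v < 4X` and `0` else: `Bd W₁` and `BF (Ec) W f g = n^c BF (Ec) W₁ f g` on these boxes.
(1) `D1_dual` for `g` with `δ = n^(2 - 2c - 2c)/2`, `κ = n^(1-k2)`: `hδ`: `δ * (#T * L) ≤ n^(2-4c)/2 * 2n * n * n^(2c) = n^(4-2c) = A²`. `hinv`: if `δ ≤ ‖∑∑ f g' Kf‖`
and no `th` has `κ ≤ ‖∑ g' ee‖` then `FB (Sy X) g' (n^(1-k2))`, so by `INVE` `‖∑∑ f g' Kf‖ = n^c ‖BF (Ec) W₁ f g'‖ ≤ n^(2 - d2 + c) < δ` (`n` large: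
`d2 ≥ 100 c`): contradiction. Result: `th` with `n^(1-k2) * L ≤ ‖BF (Ec) W f (ee(th ·))‖`, and `n^(1-k2) L ≥ n^(2-k2) =: A'`.
(2) `D1_dual` with the roles exchanged: `S ↔ T`, `Kf' y x = Kf x y` (`Finset.sum_comm`, `mul_comm`), `f := ee(th ·)`, `g := f`, `L` as before
(`#T ≤ 2n`: the hypothesis `hK` needs `‖∑_{y ∈ T} ee(th y) Kf x y‖ ≤ 2 n n^(2c)`, so take `L' = 2 L`), `A' = n^(2-k2)`, `δ' = n^(2 - 2 k2 - 2c)/2`,
`κ' = n^(1-k1)`: `δ' (#S L') ≤ n^(2-2k2-2c)/2 * n * 2 n n^(2c) = A'^2`. `hinv` from `INVE` (now `FB (Sx X) f'`): `n^(2 - d1 + c) < δ'` as `2 k2 + 3c < d1`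
(`k2 ≤ d1/8`). Result: `th'` with `n^(1-k1) L' ≤ ‖BF (Ec) W (ee(th' ·)) (ee(th ·))‖`, so it is `≥ n^(2-k1)`.
(3) `X1_exp` with `M = n^c`, `τ = X Q^(-1/4)`: the same form is `≤ 3 X n^c X Q^(-1/4) ≤ 3 n^(2 + c - 1/(4 Cr))` (`Q ≥ n^(1/Cr)`, so `Q^(-1/4) ≤ n^(-1/(4Cr))`):
contradiction for `n` large, because `k1 + c < 1/(4 Cr)`.
(`Bd` of `fun y => ee (th * y)`: `norm_ee`.)
-/
namespace Pool.Agent.H9S
open Finset Pool.Agent.H44W

theorem o1_mem {X : ℕ} {x y : ℤ} (hx : x ∈ Sx X) (hy : y ∈ Sy X) :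
    (X:ℤ) ≤ x + y ∧ x + y ≤ 4 * X ∧ (X:ℤ) < x - y ∧ x - y < 4 * X := by
  simp only [Sx, Sy, Finset.mem_Ico, Finset.mem_Ioo] at hx hy
  omega

theorem o1_rp {N c a b : ℝ} (hN : 1 ≤ N) (h4 : 4 ≤ N ^ c) (hab : a + c ≤ b) : 4 * N ^ a ≤ N ^ b := by
  have h0 : 0 < N := by linarith
  have h1 : N ^ (a + c) ≤ N ^ b := Real.rpow_le_rpow_of_exponent_le hN hab
  rw [Real.rpow_add h0] at h1
  have h2 : 0 < N ^ a := Real.rpow_pos_of_pos h0 a
  nlinarith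

theorem o1_BF (S T : Finset ℤ) (F W f g : ℤ → ℂ) :
    BF S T F W f g = ∑ x ∈ S, ∑ y ∈ T, f x * g y * (F (x + y) * W (x - y)) := by
  unfold BF
  refine Finset.sum_congr rfl fun x _ => Finset.sum_congr rfl fun y _ => ?_
  ring

theorem o1_BF' (S T : Finset ℤ) (F W f g : ℤ → ℂ) :
    BF S T F W f g = ∑ y ∈ T, ∑ x ∈ S, g y * f x * (F (x + y) * W (x - y)) := by
  unfold BF
  rw [Finset.sum_comm]
  refine Finset.sum_congr rfl fun x _ => Finset.sum_congr rfl fun y _ => ?_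
  ring

theorem o1_scale (S T : Finset ℤ) (F W W₁ f g : ℤ → ℂ) (s : ℝ) (hs : 0 ≤ s)
    (h : ∀ x ∈ S, ∀ y ∈ T, W (x - y) = s * W₁ (x - y)) :
    ‖BF S T F W f g‖ = s * ‖BF S T F W₁ f g‖ := by
  have h1 : BF S T F W f g = (s:ℂ) * BF S T F W₁ f g := by
    unfold BF
    rw [Finset.mul_sum]
    refine Finset.sum_congr rfl fun x hx => ?_
    rw [Finset.mul_sum]
    refine Finset.sum_congr rfl fun y hy => ?_
    rw [h x hx y hy]
    ring
  rw [h1, norm_mul, Complex.norm_real, Real.norm_of_nonneg hs]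

theorem o1_ee (th : ℝ) : Bd (fun y => ee (th * y)) := fun x => le_of_eq (norm_ee _)

theorem o1_cardS (X : ℕ) : (Sx X).card = X := by
  simp only [Sx, Int.card_Ico]
  omega

theorem o1_cardT (X : ℕ) : (Sy X).card ≤ 2 * X := by
  simp only [Sy, Int.card_Ioo]
  omega

theorem o1_sumle (S : Finset ℤ) (u : ℤ → ℂ) (B : ℝ) (h : ∀ x ∈ S, ‖u x‖ ≤ B) :
    ‖∑ x ∈ S, u x‖ ≤ S.card * B := by
  refine (norm_sum_le _ _).trans ?_
  calc ∑ x ∈ S, ‖u x‖ ≤ ∑ x ∈ S, B := Finset.sum_le_sum h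
    _ = S.card * B := by rw [Finset.sum_const, nsmul_eq_mul]

theorem o1_Q {N Qr Cr : ℝ} (hN : 1 ≤ N) (hQ : 0 < Qr) (hCr : 1 ≤ Cr)
    (h : Real.log N ≤ Cr * Real.log Qr) : Qr ^ (-(1 / 4) : ℝ) ≤ N ^ (-(1 / (4 * Cr))) := by
  have h0 : 0 < N := by linarith
  rw [Real.rpow_def_of_pos hQ, Real.rpow_def_of_pos h0]
  apply Real.exp_le_exp.mpr
  have hc : 0 < Cr := by linarith
  have h1 : Real.log N * (1 / (4 * Cr)) ≤ Real.log Qr * (1 / 4) := by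
    have h2 : Real.log N * (1 / (4 * Cr)) ≤ (Cr * Real.log Qr) * (1 / (4 * Cr)) :=
      mul_le_mul_of_nonneg_right h (by positivity)
    have h3 : (Cr * Real.log Qr) * (1 / (4 * Cr)) = Real.log Qr * (1 / 4) := by
      field_simp
    linarith
  linarith

/-- One application of the dual function, abstractly: `P` is the bound `n^(2-d)` for functions without large coefficient. -/
theorem o1_contra {a b c : ℝ} (h1 : a ≤ b) (h2 : b < c) (h3 : c ≤ a) : False := by linarith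

theorem O1_op (h : INVE) : OPW := by
  intro Cr C hCr hC
  have hCr0 : 0 < Cr := by linarith
  obtain ⟨d1, hd1, n1, H1⟩ := h Cr C (1 / (8 * Cr)) hCr hC (by positivity)
  have hk2 : 0 < min d1 1 / 8 := by positivity
  obtain ⟨d2, hd2, n2, H2⟩ := h Cr C (min d1 1 / 8) hCr hC hk2
  obtain ⟨k1, hk1⟩ : ∃ k1, k1 = 1 / (8 * Cr) := ⟨_, rfl⟩
  obtain ⟨k2, hk2'⟩ : ∃ k2, k2 = min d1 1 / 8 := ⟨_, rfl⟩
  rw [← hk1] at H1
  rw [← hk2'] at H2 hk2
  obtain ⟨c, hc⟩ : ∃ c, c = min (min d1 d2) (min (1 / Cr) 1) / 100 := ⟨_, rfl⟩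
  have hc0 : 0 < c := by rw [hc]; positivity
  have hcd1 : 100 * c ≤ d1 := by
    rw [hc]; have := min_le_left (min d1 d2) (min (1 / Cr) 1); have := min_le_left d1 d2; linarith
  have hcd2 : 100 * c ≤ d2 := by
    rw [hc]; have := min_le_left (min d1 d2) (min (1 / Cr) 1); have := min_le_right d1 d2; linarith
  have hck : 12 * c ≤ k1 := by
    have h1 := min_le_right (min d1 d2) (min (1 / Cr) 1)
    have h2 := min_le_left (1 / Cr) (1:ℝ)
    have h3 : k1 = 1 / Cr / 8 := by rw [hk1]; field_simp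
    have h4 : 0 < 1 / Cr := by positivity
    rw [hc, h3]; linarith
  have hkd : 8 * k2 ≤ d1 := by rw [hk2']; have := min_le_left d1 1; linarith
  refine ⟨c, hc0, max (max n1 n2) (⌈(4:ℝ) ^ (1 / c)⌉₊ + 1), ?_⟩
  intro n hn Q X hQ hlog hX1 hXn hLK hEF hEb W f g hW hf hg
  have hn1 : n1 ≤ n := le_trans (le_trans (le_max_left _ _) (le_max_left _ _)) hn
  have hn2 : n2 ≤ n := le_trans (le_trans (le_max_right _ _) (le_max_left _ _)) hn
  have hn3 : ⌈(4:ℝ) ^ (1 / c)⌉₊ + 1 ≤ n := le_trans (le_max_right _ _) hn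
  have hn4 : (4:ℝ) ^ (1 / c) ≤ n := by
    have h1 := Nat.le_ceil ((4:ℝ) ^ (1 / c))
    have h2 : (⌈(4:ℝ) ^ (1 / c)⌉₊ : ℝ) ≤ n := by exact_mod_cast (by omega : ⌈(4:ℝ) ^ (1 / c)⌉₊ ≤ n)
    linarith
  have hN1 : (1:ℝ) ≤ n := by exact_mod_cast (by omega : 1 ≤ n)
  obtain ⟨N, hNn⟩ : ∃ N : ℝ, N = n := ⟨_, rfl⟩
  have hN : 1 ≤ N := by rw [hNn]; exact hN1
  have hN0 : 0 < N := by linarith
  have h4 : 4 ≤ N ^ c := by
    have h1 : ((4:ℝ) ^ (1 / c)) ^ c ≤ N ^ c :=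
      Real.rpow_le_rpow (by positivity) (by rw [hNn]; exact hn4) hc0.le
    rw [← Real.rpow_mul (by norm_num), one_div, inv_mul_cancel₀ hc0.ne', Real.rpow_one] at h1
    exact h1
  specialize H1 n hn1 Q X hQ hlog hX1 hXn hLK
  specialize H2 n hn2 Q X hQ hlog hX1 hXn hLK
  rw [← hNn] at H1 H2 hEb hW ⊢
  have hXN : (X:ℝ) ≤ N := by rw [hNn]; exact_mod_cast hXn
  have hX0 : (0:ℝ) ≤ X := Nat.cast_nonneg X
  by_contra hcon
  have hcon' : N ^ (2 - c) < ‖BF (Sx X) (Sy X) (Ec Q X) W f g‖ := not_le.mp hcon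
  have hS : (Sx X).Nonempty := by
    rw [← Finset.card_pos, o1_cardS]; omega
  have hT : (Sy X).Nonempty := ⟨0, by simp only [Sy, Finset.mem_Ioo]; omega⟩
  have hNc0 : 0 < N ^ c := by linarith
  -- the scaled weight
  obtain ⟨W₁, hW₁⟩ : ∃ W₁ : ℤ → ℂ, W₁ = fun v => if (X:ℤ) < v ∧ v < 4 * X then W v / ((N ^ c : ℝ) : ℂ) else 0 :=
    ⟨_, rfl⟩
  have hBW : Bd W₁ := by
    intro v
    rw [hW₁]
    dsimp only
    split_ifs with hv
    · rw [norm_div, Complex.norm_real, Real.norm_of_nonneg hNc0.le, div_le_one hNc0]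
      exact hW v hv.1 hv.2
    · simp
  have hWs : ∀ x ∈ Sx X, ∀ y ∈ Sy X, W (x - y) = ((N ^ c : ℝ) : ℂ) * W₁ (x - y) := by
    intro x hx y hy
    have hm := o1_mem hx hy
    rw [hW₁]
    dsimp only
    rw [if_pos ⟨hm.2.2.1, hm.2.2.2⟩, mul_div_cancel₀]
    exact_mod_cast hNc0.ne'
  have hsc : ∀ f' g' : ℤ → ℂ, ‖BF (Sx X) (Sy X) (Ec Q X) W f' g'‖ = N ^ c * ‖BF (Sx X) (Sy X) (Ec Q X) W₁ f' g'‖ :=
    fun f' g' => o1_scale _ _ _ _ _ _ _ _ hNc0.le hWs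
  have hKb : ∀ x ∈ Sx X, ∀ y ∈ Sy X, ‖Ec Q X (x + y) * W (x - y)‖ ≤ N ^ (2 * c) := by
    intro x hx y hy
    have hm := o1_mem hx hy
    rw [norm_mul, two_mul, Real.rpow_add hN0]
    exact mul_le_mul (hEb _ hm.1 hm.2.1) (hW _ hm.2.2.1 hm.2.2.2) (norm_nonneg _) hNc0.le
  have hN2c : 0 < N ^ (2 * c) := Real.rpow_pos_of_pos hN0 _
  -- step 1
  obtain ⟨th, hth⟩ := D1_dual (Sx X) (Sy X) hT (fun x y => Ec Q X (x + y) * W (x - y)) (N * N ^ (2 * c))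
    (by positivity) f
    (by
      intro y hy
      refine (o1_sumle (Sx X) _ (N ^ (2 * c)) ?_).trans ?_
      · intro x hx
        rw [norm_mul]
        calc ‖f x‖ * ‖Ec Q X (x + y) * W (x - y)‖ ≤ 1 * N ^ (2 * c) :=
              mul_le_mul (hf x) (hKb x hx y hy) (norm_nonneg _) (by norm_num)
          _ = N ^ (2 * c) := one_mul _
      · rw [o1_cardS]
        exact mul_le_mul_of_nonneg_right hXN hN2c.le)
    (N ^ (2 - 4 * c) / 2) (N ^ (1 - k2)) (N ^ (2 - c)) (Real.rpow_nonneg hN0.le _)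
    (by
      intro g' hg' hd
      by_contra hno
      push Not at hno
      have hb := H2 W₁ f g' hBW hf hg' (Or.inl fun th => (hno th).le)
      rw [← o1_BF, hsc] at hd
      have h5 : N ^ c * ‖BF (Sx X) (Sy X) (Ec Q X) W₁ f g'‖ ≤ N ^ (2 - d2 + c) := by
        rw [add_comm (2 - d2) c, Real.rpow_add hN0]
        exact mul_le_mul_of_nonneg_left hb hNc0.le
      have h6 : 4 * N ^ (2 - d2 + c) ≤ N ^ (2 - 4 * c) := o1_rp hN h4 (by linarith)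
      have h7 : 0 < N ^ (2 - 4 * c) := Real.rpow_pos_of_pos hN0 _
      linarith)
    g hg (by rw [← o1_BF]; exact hcon'.le)
    (by
      have h5 : ((Sy X).card : ℝ) ≤ 2 * N := by
        have : ((Sy X).card : ℝ) ≤ 2 * X := by exact_mod_cast o1_cardT X
        linarith
      have h6 : 0 ≤ N ^ (2 - 4 * c) / 2 := by positivity
      calc N ^ (2 - 4 * c) / 2 * (((Sy X).card : ℝ) * (N * N ^ (2 * c)))
          ≤ N ^ (2 - 4 * c) / 2 * ((2 * N) * (N * N ^ (2 * c))) :=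
            mul_le_mul_of_nonneg_left (mul_le_mul_of_nonneg_right h5 (by positivity)) h6
        _ = N ^ (2 - 4 * c) * N ^ (2:ℝ) * N ^ (2 * c) := by
            rw [Real.rpow_two]; ring
        _ = (N ^ (2 - c)) ^ 2 := by
            rw [← Real.rpow_add hN0, ← Real.rpow_add hN0, ← Real.rpow_natCast, ← Real.rpow_mul hN0.le]
            congr 1
            push_cast
            ring)
  rw [← o1_BF (Sx X) (Sy X) (Ec Q X) W f (fun y => ee (th * y))] at hth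
  have hA' : N ^ (2 - k2) ≤ ‖BF (Sx X) (Sy X) (Ec Q X) W f (fun y => ee (th * y))‖ := by
    refine le_trans ?_ hth
    have h5 : N ^ (2 - k2) = N ^ (1 - k2) * N := by
      nth_rewrite 3 [← Real.rpow_one N]
      rw [← Real.rpow_add hN0]; congr 1; ring
    have h6 : 1 ≤ N ^ (2 * c) := Real.one_le_rpow hN (by linarith)
    have h7 : 0 ≤ N ^ (1 - k2) * N := by positivity
    rw [h5, ← mul_assoc]
    nlinarith
  -- step 2
  obtain ⟨th', hth'⟩ := D1_dual (Sy X) (Sx X) hS (fun y x => Ec Q X (x + y) * W (x - y)) (2 * N * N ^ (2 * c))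
    (by positivity) (fun y => ee (th * y))
    (by
      intro x hx
      refine (o1_sumle (Sy X) _ (N ^ (2 * c)) ?_).trans ?_
      · intro y hy
        rw [norm_mul]
        calc ‖ee (th * y)‖ * ‖Ec Q X (x + y) * W (x - y)‖ ≤ 1 * N ^ (2 * c) :=
              mul_le_mul (norm_ee _).le (hKb x hx y hy) (norm_nonneg _) (by norm_num)
          _ = N ^ (2 * c) := one_mul _
      · have h5 : ((Sy X).card : ℝ) ≤ 2 * N := by
          have : ((Sy X).card : ℝ) ≤ 2 * X := by exact_mod_cast o1_cardT X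
          linarith
        exact mul_le_mul_of_nonneg_right h5 hN2c.le)
    (N ^ (2 - 2 * k2 - 2 * c) / 2) (N ^ (1 - k1)) (N ^ (2 - k2)) (Real.rpow_nonneg hN0.le _)
    (by
      intro g' hg' hd
      by_contra hno
      push Not at hno
      have hb := H1 W₁ g' (fun y => ee (th * y)) hBW hg' (o1_ee th) (Or.inr fun th => (hno th).le)
      rw [← o1_BF' (Sx X) (Sy X) (Ec Q X) W g' (fun y => ee (th * y)), hsc] at hd
      have h5 : N ^ c * ‖BF (Sx X) (Sy X) (Ec Q X) W₁ g' (fun y => ee (th * y))‖ ≤ N ^ (2 - d1 + c) := by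
        rw [add_comm (2 - d1) c, Real.rpow_add hN0]
        exact mul_le_mul_of_nonneg_left hb hNc0.le
      have h6 : 4 * N ^ (2 - d1 + c) ≤ N ^ (2 - 2 * k2 - 2 * c) := o1_rp hN h4 (by linarith)
      have h7 : 0 < N ^ (2 - 2 * k2 - 2 * c) := Real.rpow_pos_of_pos hN0 _
      linarith)
    f hf (by rw [← o1_BF' (Sx X) (Sy X) (Ec Q X) W f (fun y => ee (th * y))]; exact hA')
    (by
      have h5 : ((Sx X).card : ℝ) ≤ N := by rw [o1_cardS]; exact hXN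
      have h6 : 0 ≤ N ^ (2 - 2 * k2 - 2 * c) / 2 := by positivity
      calc N ^ (2 - 2 * k2 - 2 * c) / 2 * (((Sx X).card : ℝ) * (2 * N * N ^ (2 * c)))
          ≤ N ^ (2 - 2 * k2 - 2 * c) / 2 * (N * (2 * N * N ^ (2 * c))) :=
            mul_le_mul_of_nonneg_left (mul_le_mul_of_nonneg_right h5 (by positivity)) h6
        _ = N ^ (2 - 2 * k2 - 2 * c) * N ^ (2:ℝ) * N ^ (2 * c) := by
            rw [Real.rpow_two]; ring
        _ = (N ^ (2 - k2)) ^ 2 := by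
            rw [← Real.rpow_add hN0, ← Real.rpow_add hN0, ← Real.rpow_natCast, ← Real.rpow_mul hN0.le]
            congr 1
            push_cast
            ring)
  rw [← o1_BF' (Sx X) (Sy X) (Ec Q X) W (fun x => ee (th' * x)) (fun y => ee (th * y))] at hth'
  -- step 3
  have h8 := X1_exp X (Ec Q X) W (N ^ c) (X * (Q:ℝ) ^ (-(1 / 4) : ℝ)) th' th hNc0.le hW hEF
  have hQ0 : (0:ℝ) < Q := by exact_mod_cast (by omega : 0 < Q)
  have h9 : (Q:ℝ) ^ (-(1 / 4) : ℝ) ≤ N ^ (-(1 / (4 * Cr))) :=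
    o1_Q hN hQ0 hCr (by rw [hNn]; exact hlog)
  have hk1' : -(1 / (4 * Cr)) = -(2 * k1) := by rw [hk1]; field_simp; norm_num
  rw [hk1'] at h9
  have h10 : 3 * (X:ℝ) * N ^ c * (X * (Q:ℝ) ^ (-(1 / 4) : ℝ)) ≤ 3 * N * N ^ c * (N * N ^ (-(2 * k1))) := by
    have hq : 0 ≤ (Q:ℝ) ^ (-(1 / 4) : ℝ) := Real.rpow_nonneg hQ0.le _
    apply mul_le_mul
    · exact mul_le_mul_of_nonneg_right (by linarith) hNc0.le
    · exact mul_le_mul hXN h9 hq hN0.le
    · positivity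
    · positivity
  have h11 : 3 * N * N ^ c * (N * N ^ (-(2 * k1))) = 3 * N ^ (2 + c - 2 * k1) := by
    have h12 : N ^ (2 + c - 2 * k1) = N ^ (2:ℝ) * N ^ c * N ^ (-(2 * k1)) := by
      rw [← Real.rpow_add hN0, ← Real.rpow_add hN0]; congr 1
    rw [h12, Real.rpow_two]; ring
  have h13 : N ^ (2 - k1) ≤ N ^ (1 - k1) * (2 * N * N ^ (2 * c)) := by
    have h5 : N ^ (2 - k1) = N ^ (1 - k1) * N := by
      nth_rewrite 3 [← Real.rpow_one N]
      rw [← Real.rpow_add hN0]; congr 1; ring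
    have h6 : 1 ≤ N ^ (2 * c) := Real.one_le_rpow hN (by linarith)
    have h7 : 0 ≤ N ^ (1 - k1) * N := by positivity
    rw [h5]
    nlinarith
  have h14 : 4 * N ^ (2 + c - 2 * k1) ≤ N ^ (2 - k1) := o1_rp hN h4 (by linarith)
  have h15 : 0 < N ^ (2 + c - 2 * k1) := Real.rpow_pos_of_pos hN0 _
  linarith

end Pool.Agent.H9S
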