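import Pool.Agent.Lib.H9S.Defs
/-!
CHUNK P1 (S). Proper prime powers. `Λ(m) ≥ lp(m) ≥ 0` for `m ≥ 1` (equality unless `m` is a proper prime power: for a prime `m`,
`Λ m = log m = lp m`; otherwise `lp m = 0`), so the sum over `1 ≤ m ≤ 2n` is `ψ(2n) - θ(2n)` (Mathlib, `Chebyshev.psi_eq_sum_Icc`,
`Chebyshev.theta_eq_sum_Icc`), at most `2 √(2n) log(2n)` (`Chebyshev.psi_sub_theta_le`), and `log(2n) ≤ 4 (2n)^(1/4)`
(`Real.log_le_rpow_div`). So `C = 16` is enough (any constant is allowed). Convert the sum over `Icc (1:ℤ) (2n)` to one over `Icc 1 (2n)` in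
`ℕ` (`Finset.sum_nbij'` with `Int.toNat`, or induction on `n`).
-/
namespace Pool.Agent.H9S
open Finset Pool.Agent.H44W
open Pool.Agent.Lib.H68T (lp)

theorem P1_pp : ∃ C : ℝ, 0 < C ∧ ∀ n : ℕ, 1 ≤ n →
    ∑ m ∈ Icc (1:ℤ) (2 * n), |(ArithmeticFunction.vonMangoldt m.toNat : ℝ) - lp m| ≤ C * (n:ℝ) ^ (3 / 4 : ℝ) := by
  refine ⟨16, by norm_num, fun n hn => ?_⟩
  have hn' : (1:ℝ) ≤ n := by exact_mod_cast hn
  have h1 : ∑ m ∈ Icc (1:ℤ) (2 * n), |(ArithmeticFunction.vonMangoldt m.toNat : ℝ) - lp m| =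
      ∑ m ∈ Finset.Ioc 0 (2 * n),
        (if m.Prime then 0 else (ArithmeticFunction.vonMangoldt m : ℝ)) := by
    refine Finset.sum_nbij' (fun m => m.toNat) (fun m => (m : ℤ)) ?_ ?_ ?_ ?_ ?_
    · intro m hm
      rw [Finset.mem_Icc] at hm
      rw [Finset.mem_Ioc]
      omega
    · intro m hm
      rw [Finset.mem_Ioc] at hm
      rw [Finset.mem_Icc]
      omega
    · intro m hm
      rw [Finset.mem_Icc] at hm
      exact Int.toNat_of_nonneg (by omega)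
    · intro m hm
      simp
    · intro m hm
      rw [Finset.mem_Icc] at hm
      have h2 : (m.toNat : ℤ) = m := Int.toNat_of_nonneg (by omega)
      have h3 : (m : ℝ) = (m.toNat : ℝ) := by
        exact_mod_cast h2.symm
      unfold Pool.Agent.Lib.H68T.lp
      split_ifs with hp
      · rw [ArithmeticFunction.vonMangoldt_apply_prime hp, h3]
        simp
      · rw [sub_zero, abs_of_nonneg ArithmeticFunction.vonMangoldt_nonneg]
  rw [h1]
  have h4 : ∑ m ∈ Finset.Ioc 0 (2 * n),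
      (if m.Prime then 0 else (ArithmeticFunction.vonMangoldt m : ℝ)) =
      Chebyshev.psi (2 * n) - Chebyshev.theta (2 * n) := by
    rw [Chebyshev.psi_sub_theta_eq_sum_not_prime, Finset.sum_filter]
    have h : ⌊(2 * n : ℝ)⌋₊ = 2 * n := by exact_mod_cast Nat.floor_natCast (R := ℝ) (2 * n)
    rw [h]
    refine Finset.sum_congr rfl fun m _ => ?_
    split_ifs <;> rfl
  rw [h4]
  refine (Chebyshev.psi_sub_theta_le (x := 2 * n) (by linarith)).trans ?_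
  have h6 : Real.log (2 * n) ≤ (2 * n : ℝ) ^ (1 / 4 : ℝ) / (1 / 4) :=
    Real.log_le_rpow_div (by positivity) (by norm_num)
  have h7 : √(2 * n : ℝ) = (2 * n : ℝ) ^ (1 / 2 : ℝ) := Real.sqrt_eq_rpow _
  have h8 : (2 * n : ℝ) ^ (1 / 2 : ℝ) * (2 * n : ℝ) ^ (1 / 4 : ℝ) = (2 * n : ℝ) ^ (3 / 4 : ℝ) := by
    rw [← Real.rpow_add (by positivity)]
    norm_num
  have h9 : (2 * n : ℝ) ^ (3 / 4 : ℝ) ≤ 2 * (n : ℝ) ^ (3 / 4 : ℝ) := by
    rw [Real.mul_rpow (by norm_num) (by positivity)]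
    refine mul_le_mul_of_nonneg_right ?_ (by positivity)
    calc (2:ℝ) ^ (3 / 4 : ℝ) ≤ 2 ^ (1 : ℝ) :=
          Real.rpow_le_rpow_of_exponent_le (by norm_num) (by norm_num)
      _ = 2 := Real.rpow_one _
  have h10 : 0 ≤ (2 * n : ℝ) ^ (1 / 2 : ℝ) := by positivity
  calc 2 * √(2 * n : ℝ) * Real.log (2 * n)
      ≤ 2 * (2 * n : ℝ) ^ (1 / 2 : ℝ) * ((2 * n : ℝ) ^ (1 / 4 : ℝ) / (1 / 4)) := by
        rw [h7]
        exact mul_le_mul_of_nonneg_left h6 (by positivity)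
    _ = 8 * ((2 * n : ℝ) ^ (1 / 2 : ℝ) * (2 * n : ℝ) ^ (1 / 4 : ℝ)) := by ring
    _ = 8 * (2 * n : ℝ) ^ (3 / 4 : ℝ) := by rw [h8]
    _ ≤ 8 * (2 * (n : ℝ) ^ (3 / 4 : ℝ)) := by linarith
    _ = 16 * (n : ℝ) ^ (3 / 4 : ℝ) := by ring

end Pool.Agent.H9S
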