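import Pool.Agent.Lib.H9S.Defs
/-!
CHUNK T1 (S/M). Boxes `S × T` as a part of `[1,n]²` by the shift `x = x' + a`, `y = y' - a`: then `x + y = x' + y'` and
`x - y = x' - y' + 2a`.
`T1_shift`: `∑_{x ∈ S} φ x = ∑_{x' ∈ Icc 1 n} if x' + a ∈ S then φ (x' + a) else 0` (`Finset.sum_filter` and `Finset.sum_nbij'` /
`Finset.sum_image`; `x' = x - a ∈ [1,n]` by `hS`), the same for `T` with `y' = y + a`.
`T1_FBg`: `∑_{y' ∈ [1,n]} g'(y') ee(th y') = ee(th a) ∑_{y ∈ T} g y ee(th y)` (`ee_add`, `norm_ee` in H44W/E1). `T1_FBf`: the same with `-a`.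
-/
namespace Pool.Agent.H9S
open Finset Pool.Agent.H44W

theorem t1_sum (n : ℕ) (a : ℤ) (S : Finset ℤ) (hS : ∀ x ∈ S, a + 1 ≤ x ∧ x ≤ a + n) (φ : ℤ → ℂ) :
    ∑ x ∈ Icc (1:ℤ) n, (if x + a ∈ S then φ (x + a) else 0) = ∑ x ∈ S, φ x := by
  rw [← sum_filter]
  refine Finset.sum_nbij' (fun x => x + a) (fun x => x - a) ?_ ?_ ?_ ?_ ?_
  · intro x hx
    exact (mem_filter.1 hx).2
  · intro x hx
    have h1 := hS x hx
    refine mem_filter.2 ⟨mem_Icc.2 ⟨by omega, by omega⟩, ?_⟩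
    show x - a + a ∈ S
    rw [sub_add_cancel]
    exact hx
  · intro x _
    show x + a - a = x
    ring
  · intro x _
    show x - a + a = x
    ring
  · intro x _
    rfl

theorem T1_shift (n : ℕ) (a : ℤ) (S T : Finset ℤ) (hS : ∀ x ∈ S, a + 1 ≤ x ∧ x ≤ a + n)
    (hT : ∀ y ∈ T, 1 - a ≤ y ∧ y ≤ n - a) (F W f g : ℤ → ℂ) :
    BF S T F W f g = TF n F (fun v => W (v + 2 * a)) (fun x => if x + a ∈ S then f (x + a) else 0)
      (fun y => if y - a ∈ T then g (y - a) else 0) := by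
  have hT' : ∀ y ∈ T, -a + 1 ≤ y ∧ y ≤ -a + n := fun y hy => by
    have := hT y hy
    omega
  have h1 : ∀ x : ℤ, ∑ y ∈ Icc (1:ℤ) n, (if x + a ∈ S then f (x + a) else 0) * (if y - a ∈ T then g (y - a) else 0) *
      F (x + y) * W (x - y + 2 * a) =
      if x + a ∈ S then (fun u => ∑ y ∈ T, f u * g y * F (u + y) * W (u - y)) (x + a) else 0 := by
    intro x
    split_ifs with hx
    · have h2 := t1_sum n (-a) T hT' (fun y => f (x + a) * g y * F (x + a + y) * W (x + a - y))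
      refine Eq.trans ?_ h2
      refine sum_congr rfl fun y _ => ?_
      have e1 : y + -a = y - a := by ring
      rw [e1]
      have e2 : x + a + (y - a) = x + y := by ring
      have e3 : x + a - (y - a) = x - y + 2 * a := by ring
      rw [e2, e3]
      split_ifs
      · rfl
      · rw [mul_zero, zero_mul, zero_mul]
    · refine sum_eq_zero fun y _ => ?_
      rw [zero_mul, zero_mul, zero_mul]
  unfold BF TF
  rw [sum_congr rfl fun x _ => h1 x]
  exact (t1_sum n a S hS _).symm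

theorem T1_FBg (n : ℕ) (a : ℤ) (T : Finset ℤ) (hT : ∀ y ∈ T, 1 - a ≤ y ∧ y ≤ n - a) (g : ℤ → ℂ) (κ : ℝ)
    (h : FB T g κ) : FB (Icc (1:ℤ) n) (fun y => if y - a ∈ T then g (y - a) else 0) κ := by
  have hT' : ∀ y ∈ T, -a + 1 ≤ y ∧ y ≤ -a + n := fun y hy => by
    have := hT y hy
    omega
  intro th
  have h1 : ∑ z ∈ Icc (1:ℤ) n, (if z - a ∈ T then g (z - a) else 0) * ee (th * z) =
      ee (th * a) * ∑ y ∈ T, g y * ee (th * y) := by
    have h2 := t1_sum n (-a) T hT' (fun y => ee (th * a) * (g y * ee (th * y)))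
    rw [mul_sum, ← h2]
    refine sum_congr rfl fun y _ => ?_
    have e1 : y + -a = y - a := by ring
    rw [e1]
    split_ifs
    · have e2 : ee (th * y) = ee (th * a) * ee (th * ((y - a : ℤ) : ℝ)) := by
        rw [← ee_add]
        congr 1
        push_cast
        ring
      rw [e2]
      ring
    · rw [zero_mul]
  show ‖∑ z ∈ Icc (1:ℤ) n, (if z - a ∈ T then g (z - a) else 0) * ee (th * z)‖ ≤ κ
  rw [h1, norm_mul, norm_ee, one_mul]
  exact h th

theorem T1_FBf (n : ℕ) (a : ℤ) (S : Finset ℤ) (hS : ∀ x ∈ S, a + 1 ≤ x ∧ x ≤ a + n) (f : ℤ → ℂ) (κ : ℝ)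
    (h : FB S f κ) : FB (Icc (1:ℤ) n) (fun x => if x + a ∈ S then f (x + a) else 0) κ := by
  intro th
  have h1 : ∑ z ∈ Icc (1:ℤ) n, (if z + a ∈ S then f (z + a) else 0) * ee (th * z) =
      ee (th * ((-a : ℤ) : ℝ)) * ∑ y ∈ S, f y * ee (th * y) := by
    have h2 := t1_sum n a S hS (fun y => ee (th * ((-a : ℤ) : ℝ)) * (f y * ee (th * y)))
    rw [mul_sum, ← h2]
    refine sum_congr rfl fun y _ => ?_
    split_ifs
    · have e2 : ee (th * y) = ee (th * ((-a : ℤ) : ℝ)) * ee (th * ((y + a : ℤ) : ℝ)) := by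
        rw [← ee_add]
        congr 1
        push_cast
        ring
      rw [e2]
      ring
    · rw [zero_mul]
  show ‖∑ z ∈ Icc (1:ℤ) n, (if z + a ∈ S then f (z + a) else 0) * ee (th * z)‖ ≤ κ
  rw [h1, norm_mul, norm_ee, one_mul]
  exact h th

end Pool.Agent.H9S
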